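import Pool.Agent.Helper73.Dn.Lem

/-!
# Density law (MP_70814c_an): the extension step
-/

set_option autoImplicit false

open Pool.Agent.Helper17.Rg

namespace Pool.Agent.Helper73.Dn

/-- the index set of blocks -/
def tau (n a R : ℕ) (x : Option (Bool × Fin R)) : Option (Bool × ℕ) :=
  x.map (fun y => (y.1, n - a + y.2.1))

theorem tau_inj (n a R : ℕ) : Function.Injective (tau n a R) := by
  refine Option.map_injective ?_
  rintro ⟨b, r⟩ ⟨b', r'⟩ h
  simp only [Prod.mk.injEq, Nat.add_left_cancel_iff] at h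
  ext <;> simp [h]

theorem tau_fst (n a R : ℕ) (x : Option (Bool × Fin R)) :
    (tau n a R x).map Prod.fst = x.map Prod.fst := by
  cases x <;> rfl

/-- the frequency -/
noncomputable def xi (ρ : ℝ) : Option (Bool × ℕ) → ℕ
  | none => 1
  | some (b, i) => (gb b) ^ st ρ b i

noncomputable def lls (ρ : ℝ) : Option (Bool × ℕ) → ℕ
  | none => 0
  | some (b, i) => st ρ b i

noncomputable def Mr (ρ : ℝ) (P : Bool → Set ℕ) (m H : ℕ) (K : ℝ) : Option (Bool × ℕ) → ℝ
  | none => K * Real.exp (ρ ^ m)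
  | some (b, i) => Real.exp (ρ ^ re (P b) H i - st ρ b i * Real.log (gb b))

noncomputable def be (ρ : ℝ) (m : ℕ) (x : ℝ) : Option (Bool × ℕ) → ℝ
  | none => 2 * Real.exp (-ρ ^ m)
  | some (b, i) => -((gb b : ℝ) ^ st ρ b i * x)

theorem run_start {P : Set ℕ} {m j : ℕ} (hm : m ∉ P) (hj : m ≤ j) (hjP : j ∈ P) :
    ∃ i, m < i ∧ i ≤ j ∧ i - 1 ∉ P ∧ ∀ l, i ≤ l → l ≤ j → l ∈ P := by
  classical
  have hex : ∃ i, ∀ l, i ≤ l → l ≤ j → l ∈ P := ⟨j, fun l h1 h2 => by
    obtain rfl : l = j := le_antisymm h2 h1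
    exact hjP⟩
  have hspec := Nat.find_spec hex
  have hmin := fun k => @Nat.find_min _ _ hex k
  set i := Nat.find hex with hi
  have hij : i ≤ j := Nat.find_min' hex (fun l h1 h2 => by
    obtain rfl : l = j := le_antisymm h2 h1
    exact hjP)
  have hmi : m < i := by
    by_contra hc
    push Not at hc
    exact hm (hspec m hc hj)
  refine ⟨i, hmi, hij, fun hc => ?_, hspec⟩
  refine hmin (i - 1) (by omega) (fun l h1 h2 => ?_)
  by_cases hl : l = i - 1
  · rw [hl]; exact hc
  · exact hspec l (by omega) h2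

theorem tail_bd {ρ : ℝ} {b : Bool} {i j e k : ℕ} {y C : ℝ} (hρ : 1 < ρ) (hC : 0 ≤ C)
    (hd : di ((gb b : ℝ) ^ st ρ b i * y) ≤ C * Real.exp (st ρ b i * Real.log (gb b) - ρ ^ e))
    (hij : i ≤ j) (hje : j + 2 ≤ e) (hk : ρ ^ j ≤ k * Real.log (gb b))
    (hk2 : (k : ℝ) * Real.log (gb b) < ρ ^ (j + 1)) :
    di ((gb b : ℝ) ^ k * y) ≤ C * Real.exp (-(ρ ^ (j + 2) - ρ ^ (j + 1))) := by
  have h1 : st ρ b i ≤ k := st_le_of ((pow_le_pow_right₀ hρ.le hij).trans hk)
  obtain ⟨r, rfl⟩ := Nat.exists_eq_add_of_le h1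
  have h2 := di_nmul ((gb b) ^ r) ((gb b : ℝ) ^ st ρ b i * y)
  have h3 : (((gb b) ^ r : ℕ) : ℝ) * ((gb b : ℝ) ^ st ρ b i * y) =
      (gb b : ℝ) ^ (st ρ b i + r) * y := by
    push_cast
    rw [pow_add]; ring
  rw [h3] at h2
  refine h2.trans ?_
  have h4 : (((gb b) ^ r : ℕ) : ℝ) = Real.exp (r * Real.log (gb b)) := by
    push_cast
    exact gb_pow b r
  rw [h4]
  refine (mul_le_mul_of_nonneg_left hd (Real.exp_pos _).le).trans ?_
  rw [mul_left_comm, ← Real.exp_add]
  refine mul_le_mul_of_nonneg_left (Real.exp_le_exp.2 ?_) hC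
  have h5 : ρ ^ (j + 2) ≤ ρ ^ e := pow_le_pow_right₀ hρ.le hje
  push_cast at hk2
  linarith

theorem bst (h1 : Kron) (h2 : DualA) (h3 : MinE) (h4 : GapH) : BStage := by
  intro ρ P δ n1 hρ hδ hE
  obtain ⟨a, ha⟩ := h3 ρ P δ n1 hρ hδ hE
  refine ⟨a, fun c => ?_⟩
  obtain ⟨d, N0, hd, hm⟩ := ha c
  have hρ0 : 0 < ρ := by linarith
  set CR : ℕ := Fintype.card (Option (Bool × Fin (a + c))) with hCR
  have hCR1 : 1 ≤ CR := Fintype.card_pos
  have hCRr : (1 : ℝ) ≤ CR := by exact_mod_cast hCR1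
  set κ : ℝ := Real.log (4 * CR) with hκ
  have hκ0 : 0 ≤ κ := Real.log_nonneg (by linarith)
  have hκe : Real.exp κ = 4 * CR := Real.exp_log (by linarith)
  obtain ⟨d', N1, hd', hgap⟩ := h4 ρ P a c d κ hρ hd
  obtain ⟨t0, ht0⟩ := h2 (Option (Bool × Fin (a + c))) (fun x => x.map Prod.fst)
    (2 * ρ ^ c + κ + 4) d' hd'
  obtain ⟨N2, hN2⟩ : ∃ N2 : ℕ, ∀ n, N2 ≤ n → t0 ≤ ρ ^ n ∧ 2 / (ρ - 1) ≤ ρ ^ n := by
    have := tendsto_pow_atTop_atTop_of_one_lt hρ
    have h5 := (this.eventually_ge_atTop t0).and (this.eventually_ge_atTop (2 / (ρ - 1)))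
    exact Filter.eventually_atTop.1 h5
  refine ⟨max (max N0 N1) (N2 + a), CR, fun n hn => ?_⟩
  obtain ⟨m, hnm, hmn, hmP, hEm⟩ := hm n (by omega)
  refine ⟨m, hnm, hmn, hmP, fun x => ?_⟩
  classical
  set H := n + c with hH
  set A : Finset (Option (Bool × Fin (a + c))) :=
    Finset.univ.filter (fun y => Act P m H (tau n a (a + c) y)) with hA
  have hnone : (none : Option (Bool × Fin (a + c))) ∈ A := by
    rw [hA, Finset.mem_filter]
    exact ⟨Finset.mem_univ _, trivial⟩
  have ht1 : (1 : ℝ) ≤ ρ ^ n := one_le_pow₀ hρ.le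
  have hmpow : ρ ^ m ≤ ρ ^ n := pow_le_pow_right₀ hρ.le hmn.le
  have hcpow : (1 : ℝ) ≤ ρ ^ c := one_le_pow₀ hρ.le
  have hHpow : ρ ^ H = ρ ^ c * ρ ^ n := by rw [hH, pow_add]; ring
  -- bounds for the divisors and sizes
  have hl : ∀ y : Option (Bool × ℕ), Act P m H y →
      (lls ρ y : ℝ) ≤ (2 * ρ ^ c + κ + 4) * ρ ^ n ∧
      |qq ρ P m H κ y| ≤ (2 * ρ ^ c + κ + 4) * ρ ^ n := by
    rintro (_ | ⟨b, i⟩) hy
    · constructor
      · simp only [lls]
        push_cast
        positivity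
      · simp only [qq]
        rw [abs_of_nonneg (by positivity)]
        nlinarith
    · obtain ⟨hy1, hy2, hy3, hy4⟩ := hy
      have hi : ρ ^ i ≤ ρ ^ H := pow_le_pow_right₀ hρ.le hy2.le
      have hre : ρ ^ re (P b) H i ≤ ρ ^ H := pow_le_pow_right₀ hρ.le (re_le hy2.le)
      constructor
      · have h5 := st_lt hρ0 b i
        have h6 := (log_gb_bd b).1
        have h7 : (st ρ b i : ℝ) * (1 / 2) ≤ st ρ b i * Real.log (gb b) :=
          mul_le_mul_of_nonneg_left h6.le (Nat.cast_nonneg _)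
        simp only [lls]
        nlinarith
      · simp only [qq]
        rw [abs_of_nonneg (by positivity)]
        nlinarith
  have hsize : ∀ y : Option (Bool × ℕ), Act P m H y → 
      ((⌈Mr ρ P m H CR y⌉₊ : ℕ) : ℝ) * xi ρ y ≤ Real.exp (qq ρ P m H κ y) := by
    rintro (_ | ⟨b, i⟩) hy
    · simp only [Mr, xi, qq]
      rw [Real.exp_add, hκe]
      have h5 := (Nat.ceil_lt_add_one (a := (CR : ℝ) * Real.exp (ρ ^ m)) (by positivity)).le
      have h6 : (1 : ℝ) ≤ Real.exp (ρ ^ m) := Real.one_le_exp (by positivity)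
      push_cast
      nlinarith [Real.exp_pos (ρ ^ m)]
    · obtain ⟨hy1, hy2, hy3, hy4⟩ := hy
      simp only [Mr, xi, qq]
      rw [Real.exp_add, hκe]
      have h5 := (Nat.ceil_lt_add_one
        (a := Real.exp (ρ ^ re (P b) H i - st ρ b i * Real.log (gb b))) (Real.exp_pos _).le).le
      have h6 : (((gb b) ^ st ρ b i : ℕ) : ℝ) = Real.exp (st ρ b i * Real.log (gb b)) := by
        push_cast
        exact gb_pow b _
      rw [h6]
      have h7 := mul_le_mul_of_nonneg_right h5 (Real.exp_pos (st ρ b i * Real.log (gb b))).le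
      rw [add_mul, ← Real.exp_add, one_mul, sub_add_cancel] at h7
      refine h7.trans ?_
      have h8 : i < re (P b) H i := by
        refine Nat.lt_of_lt_of_le (Nat.lt_succ_self i) (re_ge (fun j hj1 hj2 => ?_) (Nat.le_succ i))
        obtain rfl : j = i := by omega
        exact ⟨hy3, hy2⟩
      have h9 : ρ ^ (i + 1) ≤ ρ ^ re (P b) H i := pow_le_pow_right₀ hρ.le h8
      have h10 := (hN2 i (by omega)).2
      rw [div_le_iff₀ (by linarith)] at h10
      have h11 := st_lt hρ0 b i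
      have h12 : st ρ b i * Real.log (gb b) ≤ ρ ^ re (P b) H i := by
        rw [pow_succ] at h9
        linarith
      have h13 := Real.exp_le_exp.2 h12
      nlinarith [Real.exp_pos (ρ ^ re (P b) H i)]
  have hMpos : ∀ y : Option (Bool × ℕ), 0 < Mr ρ P m H CR y := by
    rintro (_ | ⟨b, i⟩)
    · simp only [Mr]
      positivity
    · simp only [Mr]
      positivity
  have hxi : ∀ y : Option (Bool × ℕ), 0 < xi ρ y := by
    rintro (_ | ⟨b, i⟩)
    · simp only [xi]; norm_num
    · simp only [xi]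
      have : 0 < gb b := by exact_mod_cast gb_pos b
      positivity
  have : Nonempty {y // y ∈ A} := ⟨⟨none, hnone⟩⟩
  obtain ⟨z0, hz0⟩ := h1 {y // y ∈ A} (fun y => (xi ρ (tau n a (a + c) y.1) : ℤ))
    (fun y => ⌈Mr ρ P m H CR (tau n a (a + c) y.1)⌉₊)
    (fun y => be ρ m x (tau n a (a + c) y.1))
    (fun y => Nat.one_le_iff_ne_zero.2 (Nat.ceil_pos.2 (hMpos _)).ne')
    (by
      intro co hco hsum
      set U : Option (Bool × Fin (a + c)) → ℤ := fun y =>
        if h : y ∈ A then co ⟨y, h⟩ * (xi ρ (tau n a (a + c) y) : ℤ) else 0 with hU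
      have hU1 : ∀ (y) (h : y ∈ A), U y = co ⟨y, h⟩ * (xi ρ (tau n a (a + c) y) : ℤ) := by
        intro y h
        simp only [hU, h, dif_pos]
      have hUsum : ∑ y ∈ A, U y = 0 := by
        rw [← hsum, ← Finset.sum_coe_sort A]
        exact Finset.sum_congr rfl (fun y _ => hU1 y.1 y.2)
      have hact : ∀ y ∈ A, Act P m H (tau n a (a + c) y) := fun y hy => (Finset.mem_filter.1 hy).2
      have hUz : ∀ y ∈ A, U y = 0 := by
        refine ht0 (ρ ^ n) (hN2 n (by omega)).1 A (fun y => lls ρ (tau n a (a + c) y)) U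
          (fun y => qq ρ P m H κ (tau n a (a + c) y)) (fun y hy => hl _ (hact y hy)) ?_ ?_ hUsum ?_
        · intro y hy b hb
          rw [hU1 y hy]
          refine Dvd.dvd.mul_left ?_ _
          rcases y with _ | ⟨b', r⟩
          · simp at hb
          · simp only [Option.map_some, Option.some.injEq] at hb
            subst hb
            simp only [tau, Option.map_some, xi, lls]
            push_cast
            exact dvd_rfl
        · intro y hy
          rw [hU1 y hy]
          refine le_trans ?_ (hsize _ (hact y hy))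
          push_cast
          rw [abs_mul]
          rw [abs_of_nonneg (Nat.cast_nonneg (xi ρ (tau n a (a + c) y)) : (0:ℝ) ≤ _)]
          refine mul_le_mul_of_nonneg_right ?_ (Nat.cast_nonneg _)
          have h5 := hco ⟨y, hy⟩
          have h6 : ((|co ⟨y, hy⟩| : ℤ) : ℝ) ≤ ((⌈Mr ρ P m H CR (tau n a (a + c) y)⌉₊ : ℕ) : ℝ) := by
            exact_mod_cast h5
          rwa [Int.cast_abs] at h6
        · intro I c0 hIA hc0A hc0I hI hq
          obtain ⟨c1', hc1', hle⟩ := hgap n m (by omega) hnm hmn hmP hEm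
            (I.map ⟨tau n a (a + c), tau_inj n a (a + c)⟩) (tau n a (a + c) c0)
            (by
              intro y hy
              obtain ⟨y', hy', rfl⟩ := Finset.mem_map.1 hy
              exact hact y' (hIA hy')) (hact c0 hc0A)
            (by
              intro hc
              obtain ⟨y', hy', hyy⟩ := Finset.mem_map.1 hc
              rw [tau_inj n a (a + c) hyy] at hy'
              exact hc0I hy')
            (Finset.map_nonempty.2 hI)
            (by
              intro y hy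
              obtain ⟨y', hy', rfl⟩ := Finset.mem_map.1 hy
              exact hq y' hy')
          obtain ⟨c1, hc1, rfl⟩ := Finset.mem_map.1 hc1'
          refine ⟨c1, hc1, ?_⟩
          have hpp : ∀ y : Option (Bool × Fin (a + c)),
              (lls ρ (tau n a (a + c) y) : ℝ) * lg (y.map Prod.fst) = pp ρ (tau n a (a + c) y) := by
            rintro (_ | ⟨b, r⟩)
            · simp [tau, lls, lg, pp]
            · simp [tau, lls, lg, pp]
          rw [Finset.sum_map] at hle
          simp only [Function.Embedding.coeFn_mk, tau_fst] at hle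
          simp only [hpp]
          exact hle
      funext y
      have h5 := hUz y.1 y.2
      rw [hU1 y.1 y.2] at h5
      rcases mul_eq_zero.1 h5 with h6 | h6
      · exact h6
      · exfalso
        have := hxi (tau n a (a + c) y.1)
        have h7 : xi ρ (tau n a (a + c) y.1) = 0 := by exact_mod_cast h6
        omega)
  have hcard : (Fintype.card {y // y ∈ A} : ℝ) ≤ CR := by
    rw [Fintype.card_coe]
    exact_mod_cast Finset.card_le_univ A
  have hC0 : (0 : ℝ) ≤ CR := by linarith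
  -- the variable itself
  have hz1 : di (z0 - 2 * Real.exp (-ρ ^ m)) ≤ Real.exp (-ρ ^ m) := by
    have h5 := (hz0 ⟨none, hnone⟩).trans hcard
    simp only [tau, Option.map_none, Mr, xi, be, Nat.cast_one, Int.cast_one, one_mul] at h5
    have h6 := Nat.le_ceil ((CR : ℝ) * Real.exp (ρ ^ m))
    have h7 : (CR : ℝ) * Real.exp (ρ ^ m) * di (z0 - 2 * Real.exp (-ρ ^ m)) ≤ CR :=
      (mul_le_mul_of_nonneg_right h6 (di_nonneg _)).trans h5
    have h8 : Real.exp (ρ ^ m) * di (z0 - 2 * Real.exp (-ρ ^ m)) ≤ 1 := by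
      rw [mul_assoc] at h7
      exact le_of_mul_le_mul_left (by linarith) (by linarith : (0 : ℝ) < CR)
    have h9 := mul_le_mul_of_nonneg_left h8 (Real.exp_pos (-ρ ^ m)).le
    rw [← mul_assoc, ← Real.exp_add, neg_add_cancel, Real.exp_zero, one_mul, mul_one] at h9
    exact h9
  set w : ℤ := round (z0 - 2 * Real.exp (-ρ ^ m)) with hw
  have hz2 : |z0 - 2 * Real.exp (-ρ ^ m) - w| ≤ Real.exp (-ρ ^ m) := hz1
  rw [abs_le] at hz2
  refine ⟨z0 - w, by linarith, by linarith, fun b j hmj hjH hjP hjP1 k hk1 hk2 => ?_⟩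
  obtain ⟨i, hmi, hij, hiP, hrun⟩ := run_start (hmP b) hmj hjP
  have hiP' : i ∈ P b := hrun i le_rfl hij
  have hre : j + 2 ≤ re (P b) H i := by
    refine re_ge (fun l hl1 hl2 => ?_) (by omega)
    by_cases hlj : l ≤ j
    · exact ⟨hrun l hl1 hlj, by omega⟩
    · obtain rfl : l = j + 1 := by omega
      exact ⟨hjP1, by omega⟩
  have hr : i - (n - a) < a + c := by omega
  have htau : tau n a (a + c) (some (b, ⟨i - (n - a), hr⟩)) = some (b, i) := by
    simp only [tau, Option.map_some, Option.some.injEq, Prod.mk.injEq, true_and]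
    omega
  have hmem : (some (b, ⟨i - (n - a), hr⟩) : Option (Bool × Fin (a + c))) ∈ A := by
    rw [hA, Finset.mem_filter, htau]
    exact ⟨Finset.mem_univ _, hmi, by omega, hiP', hiP⟩
  have h5 := (hz0 ⟨_, hmem⟩).trans hcard
  simp only [htau, Mr, xi, be] at h5
  push_cast at h5
  have h6 : (gb b : ℝ) ^ st ρ b i * z0 - -((gb b : ℝ) ^ st ρ b i * x) =
      (gb b : ℝ) ^ st ρ b i * (x + (z0 - w)) + (((gb b : ℤ) ^ st ρ b i * w : ℤ) : ℝ) := by
    push_cast
    ring
  rw [h6, di_add_int] at h5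
  refine tail_bd hρ hC0 ?_ hij hre hk1 hk2
  have h7 := Nat.le_ceil (Real.exp (ρ ^ re (P b) H i - st ρ b i * Real.log (gb b)))
  have h8 := (mul_le_mul_of_nonneg_right h7
    (di_nonneg ((gb b : ℝ) ^ st ρ b i * (x + (z0 - w))))).trans h5
  have h9 := mul_le_mul_of_nonneg_left h8
    (Real.exp_pos (-(ρ ^ re (P b) H i - st ρ b i * Real.log (gb b)))).le
  rw [← mul_assoc, ← Real.exp_add, neg_add_cancel, Real.exp_zero, one_mul, neg_sub, mul_comm _ (CR : ℝ)]
    at h9
  exact h9

end Pool.Agent.Helper73.Dn
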