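import Pool.Agent.Helper73.Dn.RELZ

/-!
# Density law (MP_70814c_an): exact relations have a vanishing term
-/

set_option autoImplicit false

open Pool.Agent.Helper17.Rg

namespace Pool.Agent.Helper73.Dn

/-- the data -/
def Du (B t : ℝ) (R : ℕ) (g : Fin R → Option Bool) (l : Fin R → ℕ) (U : Fin R → ℤ)
    (q : Fin R → ℝ) : Prop :=
  (∀ c, (l c : ℝ) ≤ B * t ∧ |q c| ≤ B * t) ∧ (∀ c b, g c = some b → (gb b : ℤ) ^ l c ∣ U c) ∧
    (∀ c, |(U c : ℝ)| ≤ Real.exp (q c))

/-- the inequalities -/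
def Iq (δ t : ℝ) (R : ℕ) (g : Fin R → Option Bool) (l : Fin R → ℕ) (q : Fin R → ℝ) : Prop :=
  ∀ (I : Finset (Fin R)) (c0 : Fin R), c0 ∉ I → I.Nonempty → (∀ c ∈ I, q c ≤ q c0) →
    ∃ c1 ∈ I, ∑ c ∈ I, (q c - l c * lg (g c)) +
      (if g c1 = g c0 then l c1 * lg (g c1) else 0) - l c0 * lg (g c0) ≤ -δ * t

theorem Du.sub {B t : ℝ} {R : ℕ} {g : Fin (R + 1) → Option Bool} {l : Fin (R + 1) → ℕ}
    {U : Fin (R + 1) → ℤ} {q : Fin (R + 1) → ℝ} (hD : Du B t (R + 1) g l U q)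
    (c1 : Fin (R + 1)) :
    Du B t R (g ∘ c1.succAbove) (l ∘ c1.succAbove) (U ∘ c1.succAbove) (q ∘ c1.succAbove) :=
  ⟨fun _ => hD.1 _, fun _ b hb => hD.2.1 _ b hb, fun _ => hD.2.2 _⟩

theorem Iq.sub {δ t : ℝ} {R : ℕ} {g : Fin (R + 1) → Option Bool} {l : Fin (R + 1) → ℕ}
    {q : Fin (R + 1) → ℝ} (hD : Iq δ t (R + 1) g l q) (c1 : Fin (R + 1)) :
    Iq δ t R (g ∘ c1.succAbove) (l ∘ c1.succAbove) (q ∘ c1.succAbove) := by
  intro I c0 hc0 hne hI
  obtain ⟨c2, hc2, hle⟩ := hD (I.map c1.succAboveEmb) (c1.succAbove c0)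
    (by
      intro hc
      obtain ⟨c', hc', he⟩ := Finset.mem_map.1 hc
      have : c' = c0 := c1.succAboveEmb.injective he
      rw [this] at hc'
      exact hc0 hc')
    (Finset.map_nonempty.2 hne) (by
      intro c hc
      obtain ⟨c', hc', rfl⟩ := Finset.mem_map.1 hc
      exact hI c' hc')
  obtain ⟨c', hc', rfl⟩ := Finset.mem_map.1 hc2
  refine ⟨c', hc', ?_⟩
  rw [Finset.sum_map] at hle
  exact hle

/-- the exponents -/
def ex (R : ℕ) (g : Fin (R + 1) → Option Bool) (l : Fin (R + 1) → ℕ) (c0 : Fin (R + 1))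
    (j1 : Fin R) (b : Bool) (i : Fin R) : ℤ :=
  if i = j1 ∧ g c0 = some b then (l c0 : ℤ)
  else if g (c0.succAbove i) = some b then (l (c0.succAbove i) : ℤ) else 0

theorem ex_abs {B t : ℝ} (h0 : 0 ≤ B * t) {R : ℕ} {g : Fin (R + 1) → Option Bool}
    {l : Fin (R + 1) → ℕ} {c0 : Fin (R + 1)} {j1 : Fin R} {b : Bool}
    (h : ∀ c, (l c : ℝ) ≤ B * t) (i : Fin R) : |(ex R g l c0 j1 b i : ℝ)| ≤ B * t := by
  unfold ex
  split_ifs
  · rw [Int.cast_natCast, abs_of_nonneg (Nat.cast_nonneg _)]; exact h _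
  · rw [Int.cast_natCast, abs_of_nonneg (Nat.cast_nonneg _)]; exact h _
  · simpa using h0

/-- the matrix -/
def mt (R : ℕ) (g : Fin (R + 1) → Option Bool) (lam : Fin (R + 1) → ℚ) (c0 : Fin (R + 1))
    (j1 : Fin R) (b : Bool) : Matrix (Fin R) (Fin R) ℚ :=
  if g c0 = some b then Matrix.updateRow 1 j1 (lam ∘ c0.succAbove) else 1

theorem mt_det {R : ℕ} {g : Fin (R + 1) → Option Bool} {lam : Fin (R + 1) → ℚ}
    {c0 : Fin (R + 1)} {j1 : Fin R} {b : Bool} (h : ∀ c, lam c ≠ 0) :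
    (mt R g lam c0 j1 b).det ≠ 0 := by
  unfold mt
  split_ifs
  · rw [det_updateRow_one]; exact h _
  · simp

theorem mt_div {B t : ℝ} {R : ℕ} {g : Fin (R + 1) → Option Bool} {lam : Fin (R + 1) → ℚ}
    {l : Fin (R + 1) → ℕ} {U : Fin (R + 1) → ℤ} {q : Fin (R + 1) → ℝ}
    (hD : Du B t (R + 1) g l U q) (hs : ∑ c, lam c * (U c : ℚ) = 0)
    (c0 : Fin (R + 1)) (j1 : Fin R) (b : Bool) (i : Fin R) :
    ∃ k : ℤ, (mt R g lam c0 j1 b).mulVec (fun j => (U (c0.succAbove j) : ℚ)) i *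
      ((lam c0).den : ℚ) = (gb b : ℚ) ^ ex R g l c0 j1 b i * k := by
  have hother : ∀ i : Fin R, ∃ k : ℤ, (U (c0.succAbove i) : ℚ) * ((lam c0).den : ℚ) =
      (gb b : ℚ) ^ (if g (c0.succAbove i) = some b then (l (c0.succAbove i) : ℤ) else 0) * k := by
    intro i
    split_ifs with h
    · obtain ⟨m, hm⟩ := hD.2.1 _ b h
      refine ⟨m * (lam c0).den, ?_⟩
      rw [hm, zpow_natCast]
      push_cast
      ring
    · exact ⟨U (c0.succAbove i) * (lam c0).den, by push_cast; rw [zpow_zero]; ring⟩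
  unfold mt ex
  by_cases hb : g c0 = some b
  · rw [if_pos hb, mulVec_updateRow_one]
    by_cases hi : i = j1
    · rw [if_pos hi, if_pos ⟨hi, hb⟩]
      obtain ⟨m, hm⟩ := hD.2.1 _ b hb
      refine ⟨-((lam c0).num * m), ?_⟩
      rw [Fin.sum_univ_succAbove _ c0] at hs
      have h1 : ∑ c, (lam ∘ c0.succAbove) c * (U (c0.succAbove c) : ℚ) = -(lam c0 * U c0) := by
        simp only [Function.comp]
        linarith
      rw [h1, hm, zpow_natCast]
      push_cast
      have h2 : lam c0 * ((lam c0).den : ℚ) = (lam c0).num := Rat.mul_den_eq_num _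
      calc -(lam c0 * ((gb b : ℚ) ^ l c0 * m)) * ((lam c0).den : ℚ)
          = -((lam c0 * ((lam c0).den : ℚ)) * ((gb b : ℚ) ^ l c0 * m)) := by ring
        _ = _ := by rw [h2]; ring
    · rw [if_neg hi, if_neg (fun h => hi h.1)]
      exact hother i
  · rw [if_neg hb, Matrix.one_mulVec, if_neg (fun h => hb h.2)]
    exact hother i

theorem ex_sum (R : ℕ) (g : Fin (R + 1) → Option Bool) (l : Fin (R + 1) → ℕ)
    (q : Fin (R + 1) → ℝ) (c0 : Fin (R + 1)) (j1 : Fin R) :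
    ∑ i, (q (c0.succAbove i) - ex R g l c0 j1 false i * Real.log 2 -
      ex R g l c0 j1 true i * Real.log 3) =
    ∑ c ∈ Finset.univ.erase c0, (q c - l c * lg (g c)) +
      (if g (c0.succAbove j1) = g c0 then l (c0.succAbove j1) * lg (g (c0.succAbove j1)) else 0) -
      l c0 * lg (g c0) := by
  have h1 : ∀ i, q (c0.succAbove i) - ex R g l c0 j1 false i * Real.log 2 -
      ex R g l c0 j1 true i * Real.log 3 =
      (q (c0.succAbove i) - l (c0.succAbove i) * lg (g (c0.succAbove i))) +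
      (if i = j1 then ((if g (c0.succAbove j1) = g c0 then
        l (c0.succAbove j1) * lg (g (c0.succAbove j1)) else 0) - l c0 * lg (g c0)) else 0) := by
    intro i
    by_cases hi : i = j1
    · subst hi
      rcases h0 : g c0 with _ | _ | _ <;> rcases h1 : g (c0.succAbove i) with _ | _ | _ <;>
        simp [ex, h0, h1, lg, gb]
      all_goals ring
    · rcases h0 : g c0 with _ | _ | _ <;> rcases h1 : g (c0.succAbove i) with _ | _ | _ <;>
        simp [ex, h1, lg, gb, hi]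
  rw [Finset.sum_congr rfl (fun i _ => h1 i), Finset.sum_add_distrib,
    Finset.sum_ite_eq' Finset.univ j1]
  have h2 : ∑ c ∈ Finset.univ.erase c0, (q c - l c * lg (g c)) =
      ∑ i, (q (c0.succAbove i) - l (c0.succAbove i) * lg (g (c0.succAbove i))) := by
    have h3 := Finset.add_sum_erase Finset.univ (fun c => q c - l c * lg (g c))
      (Finset.mem_univ c0)
    rw [Fin.sum_univ_succAbove _ c0] at h3
    linarith
  rw [h2]
  simp only [Finset.mem_univ, if_true]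
  ring

theorem dual_all (hsub : SubZ) (B δ : ℝ) (hδ : 0 < δ) :
    ∀ (R : ℕ) (g : Fin R → Option Bool) (lam : Fin R → ℚ), lam ≠ 0 →
      ∃ t0 : ℝ, ∀ t : ℝ, t0 ≤ t → ∀ (l : Fin R → ℕ) (U : Fin R → ℤ) (q : Fin R → ℝ),
        Du B t R g l U q → ∑ c, lam c * (U c : ℚ) = 0 → Iq δ t R g l q →
        ∃ c, lam c ≠ 0 ∧ U c = 0 := by
  intro R
  induction R with
  | zero => exact fun g lam h => absurd (Subsingleton.elim _ _) h
  | succ R ih =>
    intro g lam hlam
    by_cases hz : ∃ c1, lam c1 = 0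
    · obtain ⟨c1, hc1⟩ := hz
      have hne : lam ∘ c1.succAbove ≠ 0 := by
        intro hc
        apply hlam
        funext c
        rcases eq_or_ne c c1 with h | h
        · rw [h, hc1]; rfl
        · obtain ⟨j, hj⟩ := Fin.exists_succAbove_eq h
          rw [← hj]
          exact congrFun hc j
      obtain ⟨t0, ht0⟩ := ih (g ∘ c1.succAbove) (lam ∘ c1.succAbove) hne
      refine ⟨t0, fun t ht l U q hD hs hI => ?_⟩
      rw [Fin.sum_univ_succAbove _ c1, hc1, zero_mul, zero_add] at hs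
      obtain ⟨c, hc, hU⟩ := ht0 t ht _ _ _ (hD.sub c1) hs (hI.sub c1)
      exact ⟨_, hc, hU⟩
    push Not at hz
    rcases Nat.eq_zero_or_pos R with hR | hR
    · subst hR
      refine ⟨0, fun t _ l U q _ hs _ => ⟨0, hz 0, ?_⟩⟩
      rw [Fin.sum_univ_one] at hs
      rcases mul_eq_zero.1 hs with h | h
      · exact absurd h (hz 0)
      · exact_mod_cast h
    have hS := fun (c0 : Fin (R + 1)) (j1 : Fin R) => hsub R hR 1
      (mt R g lam c0 j1 false) (mt R g lam c0 j1 true) (by simp) (mt_det hz) (mt_det hz)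
      (lam c0).den (lam c0).den_pos B δ hδ
    choose t0 F hF hT using hS
    have hih := fun (c0 : Fin (R + 1)) (u : Fin R → ℚ) (hu : u ≠ 0) => ih (g ∘ c0.succAbove) u hu
    choose! t1 ht1 using hih
    refine ⟨∑ c0, ∑ j1, (|t0 c0 j1| + ∑ u ∈ F c0 j1, |t1 c0 u|), fun t ht l U q hD hs hI => ?_⟩
    have htc : ∀ c0 j1, |t0 c0 j1| + ∑ u ∈ F c0 j1, |t1 c0 u| ≤ t := by
      intro c0 j1
      refine le_trans ?_ ht
      refine le_trans ?_ (Finset.single_le_sum
        (f := fun c0 => ∑ j1, (|t0 c0 j1| + ∑ u ∈ F c0 j1, |t1 c0 u|))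
        (fun c _ => Finset.sum_nonneg (fun j _ => by positivity)) (Finset.mem_univ c0))
      exact Finset.single_le_sum (f := fun j1 => |t0 c0 j1| + ∑ u ∈ F c0 j1, |t1 c0 u|)
        (fun c _ => by positivity) (Finset.mem_univ j1)
    obtain ⟨c0, -, hc0⟩ := Finset.exists_max_image Finset.univ q ⟨0, Finset.mem_univ _⟩
    have hBt : 0 ≤ B * t := le_trans (Nat.cast_nonneg _) (hD.1 0).1
    obtain ⟨c1, hc1, hle⟩ := hI (Finset.univ.erase c0) c0 (Finset.notMem_erase _ _)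
      (by
        rw [← Finset.card_pos, Finset.card_erase_of_mem (Finset.mem_univ _), Finset.card_univ,
          Fintype.card_fin]
        omega)
      (fun c _ => hc0 c (Finset.mem_univ c))
    obtain ⟨j1, rfl⟩ := Fin.exists_succAbove_eq (Finset.ne_of_mem_erase hc1)
    obtain ⟨u, hu, huX⟩ := hT c0 j1 t
      (le_trans (le_trans (le_abs_self _) (le_add_of_nonneg_right (by positivity))) (htc c0 j1))
      (fun j => (U (c0.succAbove j) : ℚ)) (fun i => ⟨0, U (c0.succAbove i), by simp⟩)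
      (fun j => q (c0.succAbove j)) (ex R g l c0 j1 false) (ex R g l c0 j1 true)
      (fun i => ⟨(hD.1 _).2, ex_abs hBt (fun c => (hD.1 c).1) i,
        ex_abs hBt (fun c => (hD.1 c).1) i⟩)
      (by
        intro i
        rw [Matrix.one_mulVec]
        have := hD.2.2 (c0.succAbove i)
        simpa using this)
      (by
        intro i
        obtain ⟨k, hk⟩ := mt_div hD hs c0 j1 false i
        refine ⟨0, k, ?_⟩
        rw [pow_zero, mul_one, hk]
        simp [gb])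
      (by
        intro i
        obtain ⟨k, hk⟩ := mt_div hD hs c0 j1 true i
        refine ⟨0, k, ?_⟩
        rw [pow_zero, mul_one, hk]
        simp [gb])
      (by
        rw [ex_sum]
        exact hle)
    have h2 : |t1 c0 u| ≤ ∑ u ∈ F c0 j1, |t1 c0 u| :=
      Finset.single_le_sum (f := fun u => |t1 c0 u|) (fun u _ => abs_nonneg _) hu
    have h3 := htc c0 j1
    have h4 := abs_nonneg (t0 c0 j1)
    have h5 := le_abs_self (t1 c0 u)
    obtain ⟨j, hj1, hj2⟩ := ht1 c0 u (hF c0 j1 u hu) t (by linarith) _ _ _ (hD.sub c0) huX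
      (hI.sub c0)
    exact ⟨c0.succAbove j, hz _, hj2⟩

theorem dual (h : SubZ) : Dual := by
  intro R g lam B δ hlam hδ
  obtain ⟨t0, ht0⟩ := dual_all h B δ hδ R g lam hlam
  refine ⟨t0, fun t ht l U q h1 h2 h3 h4 h5 => ?_⟩
  exact ht0 t ht l U q ⟨h1, h2, h3⟩ h4 h5

end Pool.Agent.Helper73.Dn
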