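import Pool.Agent.Helper73.Dn.Lem

/-!
# Density law (MP_70814c_an): the inequality behind the exact relations
-/

set_option autoImplicit false

open Pool.Agent.Helper17.Rg

namespace Pool.Agent.Helper73.Dn

/-- the window of an index -/
noncomputable def win (P : Bool → Set ℕ) (H : ℕ) : Option (Bool × ℕ) → Finset (Bool × ℕ)
  | none => ∅
  | some (b, i) => {b} ×ˢ Finset.Ico i (re (P b) H i)

theorem re_lt_of {P : Set ℕ} {H i i' : ℕ} (h : i < i') (h2 : i' - 1 ∉ P) : re P H i ≤ i' - 1 :=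
  Nat.sInf_le (s := {j | i ≤ j ∧ (j ∉ P ∨ H ≤ j)}) ⟨by omega, Or.inl h2⟩

theorem act_lt {P : Bool → Set ℕ} {m H : ℕ} {b : Bool} {i : ℕ} (h : Act P m H (some (b, i))) :
    i < re (P b) H i := by
  obtain ⟨h1, h2, h3, h4⟩ := h
  refine Nat.lt_of_lt_of_le (Nat.lt_succ_self i) (re_ge (fun j hj1 hj2 => ?_) (Nat.le_succ i))
  obtain rfl : j = i := by omega
  exact ⟨h3, h2⟩

theorem win_disj {P : Bool → Set ℕ} {m H : ℕ} {x y : Option (Bool × ℕ)} (hx : Act P m H x)
    (hy : Act P m H y) (hne : x ≠ y) : Disjoint (win P H x) (win P H y) := by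
  rcases x with _ | ⟨b, i⟩
  · exact Finset.disjoint_empty_left _
  rcases y with _ | ⟨b', i'⟩
  · exact Finset.disjoint_empty_right _
  rw [Finset.disjoint_left]
  rintro ⟨c, j⟩ h1 h2
  simp only [win, Finset.mem_product, Finset.mem_singleton, Finset.mem_Ico] at h1 h2
  obtain ⟨rfl, h3, h4⟩ := h1
  obtain ⟨rfl, h5, h6⟩ := h2
  have hii : i ≠ i' := by
    rintro rfl
    exact hne rfl
  rcases lt_or_gt_of_ne hii with h | h
  · have := re_lt_of (H := H) h hy.2.2.2
    omega
  · have := re_lt_of (H := H) h hx.2.2.2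
    omega

theorem sum_wt (ρ : ℝ) {i e : ℕ} (h : i ≤ e) :
    ∑ j ∈ Finset.Ico i e, (ρ ^ (j + 1) - ρ ^ j) = ρ ^ e - ρ ^ i := by
  induction e, h using Nat.le_induction with
  | base => simp
  | succ e he ih =>
    rw [Finset.sum_Ico_succ_top he, ih]
    ring

theorem sum_win (ρ : ℝ) {P : Bool → Set ℕ} {m H : ℕ} {b : Bool} {i : ℕ}
    (h : Act P m H (some (b, i))) :
    ∑ p ∈ win P H (some (b, i)), (ρ ^ (p.2 + 1) - ρ ^ p.2) = ρ ^ re (P b) H i - ρ ^ i := by
  simp only [win]
  rw [Finset.sum_product, Finset.sum_singleton]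
  exact sum_wt ρ (act_lt h).le

open Classical in
theorem EE_diff (ρ : ℝ) (P : Bool → Set ℕ) {m e : ℕ} (h : m ≤ e) :
    ∑ p ∈ ((Finset.univ : Finset Bool) ×ˢ Finset.Ico m e).filter (fun p => p.2 ∈ P p.1),
      (ρ ^ (p.2 + 1) - ρ ^ p.2) = ρ ^ e - ρ ^ m - (EE ρ P e - EE ρ P m) := by
  rw [Finset.sum_filter, Finset.sum_product]
  simp only [EE, Finset.sum_filter]
  have h1 : ∀ b : Bool, ∑ j ∈ Finset.Ico m e, (if j ∈ P b then ρ ^ (j + 1) - ρ ^ j else 0) =
      ∑ j ∈ Finset.range e, (if j ∈ P b then ρ ^ (j + 1) - ρ ^ j else 0) -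
      ∑ j ∈ Finset.range m, (if j ∈ P b then ρ ^ (j + 1) - ρ ^ j else 0) := fun b =>
    Finset.sum_Ico_eq_sub _ h
  simp only [h1]
  rw [Finset.sum_sub_distrib]
  ring

theorem qq_pp_le {ρ : ℝ} {P : Bool → Set ℕ} {m H : ℕ} {κ : ℝ} {b : Bool} {i : ℕ}
    (h : Act P m H (some (b, i))) :
    qq ρ P m H κ (some (b, i)) - pp ρ (some (b, i)) ≤
      ∑ p ∈ win P H (some (b, i)), (ρ ^ (p.2 + 1) - ρ ^ p.2) + κ := by
  rw [sum_win ρ h]
  simp only [qq, pp]
  have := st_ge ρ b i
  linarith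

theorem card_act {P : Bool → Set ℕ} {m H r : ℕ} (hr : H ≤ m + r)
    {I : Finset (Option (Bool × ℕ))} (hI : ∀ x ∈ I, Act P m H x) : I.card ≤ 2 * r + 1 := by
  classical
  have hsub : I ⊆ insert none (((Finset.univ : Finset Bool) ×ˢ Finset.Ico m H).map
      ⟨some, Option.some_injective _⟩) := by
    rintro (_ | ⟨b, i⟩) hx
    · exact Finset.mem_insert_self _ _
    · refine Finset.mem_insert_of_mem (Finset.mem_map.2 ⟨(b, i), ?_, rfl⟩)
      obtain ⟨h1, h2, h3, h4⟩ := hI _ hx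
      simp only [Finset.mem_product, Finset.mem_univ, true_and, Finset.mem_Ico]
      omega
  refine (Finset.card_le_card hsub).trans ((Finset.card_insert_le _ _).trans ?_)
  rw [Finset.card_map, Finset.card_product, Nat.card_Ico]
  simp only [Finset.card_univ, Fintype.card_bool]
  omega

/-- main estimate, cases without the base `b0` -/
theorem main_A {ρ : ℝ} (hρ : 1 < ρ) {P : Bool → Set ℕ} {m H : ℕ}
    {I : Finset (Option (Bool × ℕ))} {b0 : Bool} {i0 : ℕ} (hI : ∀ x ∈ I, Act P m H x)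
    (hc0 : Act P m H (some (b0, i0))) (hnI : some (b0, i0) ∉ I)
    (hend : ∀ b i, some (b, i) ∈ I → re (P b) H i ≤ re (P b0) H i0) :
    ∑ x ∈ I, ∑ p ∈ win P H x, (ρ ^ (p.2 + 1) - ρ ^ p.2) ≤
      ρ ^ i0 - ρ ^ m - (EE ρ P (re (P b0) H i0) - EE ρ P m) := by
  classical
  have hact : ∀ x ∈ insert (some (b0, i0)) I, Act P m H x := by
    intro x hx
    rcases Finset.mem_insert.1 hx with h | h
    · rw [h]; exact hc0
    · exact hI x h
  have h1 : ∑ x ∈ insert (some (b0, i0)) I, ∑ p ∈ win P H x, (ρ ^ (p.2 + 1) - ρ ^ p.2) ≤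
      ∑ p ∈ ((Finset.univ : Finset Bool) ×ˢ Finset.Ico m (re (P b0) H i0)).filter
        (fun p => p.2 ∈ P p.1), (ρ ^ (p.2 + 1) - ρ ^ p.2) := by
    rw [← Finset.sum_biUnion (fun x hx y hy hne => win_disj (hact x hx) (hact y hy) hne)]
    refine Finset.sum_le_sum_of_subset_of_nonneg ?_ ?_
    · rintro ⟨b, j⟩ hp
      obtain ⟨x, hx, hpx⟩ := Finset.mem_biUnion.1 hp
      have hax := hact x hx
      rcases x with _ | ⟨b', i⟩
      · simp [win] at hpx
      · simp only [win, Finset.mem_product, Finset.mem_singleton, Finset.mem_Ico] at hpx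
        obtain ⟨rfl, h2, h3⟩ := hpx
        have hle : re (P b) H i ≤ re (P b0) H i0 := by
          rcases Finset.mem_insert.1 hx with h | h
          · simp only [Option.some.injEq, Prod.mk.injEq] at h
            rw [h.1, h.2]
          · exact hend b i h
        have hP := (re_run h2 h3).1
        have hm := hax.1
        simp only [Finset.mem_filter, Finset.mem_product, Finset.mem_univ, true_and,
          Finset.mem_Ico]
        exact ⟨⟨by omega, by omega⟩, hP⟩
    · intro p _ _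
      have := pow_le_pow_right₀ hρ.le (Nat.le_succ p.2)
      simp only [Nat.succ_eq_add_one] at this
      linarith
  have hlt := act_lt hc0
  have hmi := hc0.1
  rw [EE_diff ρ P (by omega : m ≤ re (P b0) H i0), Finset.sum_insert hnI, sum_win ρ hc0] at h1
  linarith

/-- main estimate, all windows have the base `b0` -/
theorem main_B {ρ : ℝ} (hρ : 1 < ρ) {P : Bool → Set ℕ} {m H : ℕ}
    {I : Finset (Option (Bool × ℕ))} {b0 : Bool} {i0 i1 : ℕ} (hI : ∀ x ∈ I, Act P m H x)
    (hne : I.Nonempty)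
    (hB : ∀ x ∈ I, ∃ i, x = some (b0, i) ∧ i1 ≤ i ∧ i < i0) (h0 : i0 - 1 ∉ P b0) :
    ∑ x ∈ I, ∑ p ∈ win P H x, (ρ ^ (p.2 + 1) - ρ ^ p.2) ≤ ρ ^ (i0 - 1) - ρ ^ i1 := by
  classical
  rw [← Finset.sum_biUnion (fun x hx y hy hne => win_disj (hI x hx) (hI y hy) hne)]
  obtain ⟨x0, hx0⟩ := hne
  obtain ⟨i, -, hi1, hi2⟩ := hB x0 hx0
  have hle : i1 ≤ i0 - 1 := by omega
  rw [← sum_wt ρ hle]
  have h1 : ∑ j ∈ Finset.Ico i1 (i0 - 1), (ρ ^ (j + 1) - ρ ^ j) =
      ∑ p ∈ ({b0} : Finset Bool) ×ˢ Finset.Ico i1 (i0 - 1), (ρ ^ (p.2 + 1) - ρ ^ p.2) := by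
    rw [Finset.sum_product, Finset.sum_singleton]
  rw [h1]
  refine Finset.sum_le_sum_of_subset_of_nonneg ?_ ?_
  · rintro ⟨b, j⟩ hp
    obtain ⟨x, hx, hpx⟩ := Finset.mem_biUnion.1 hp
    obtain ⟨i', rfl, hi1', hi2'⟩ := hB x hx
    simp only [win, Finset.mem_product, Finset.mem_singleton, Finset.mem_Ico] at hpx
    obtain ⟨rfl, h2, h3⟩ := hpx
    have := re_lt_of (H := H) hi2' h0
    simp only [Finset.mem_product, Finset.mem_singleton, Finset.mem_Ico, true_and]
    omega
  · intro p _ _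
    have := pow_le_pow_right₀ hρ.le (Nat.le_succ p.2)
    simp only [Nat.succ_eq_add_one] at this
    linarith

theorem gapH : GapH := by
  intro ρ P a c d κ hρ hd
  have hρ0 : 0 < ρ := by linarith
  set w2 : ℝ := (1 - 1 / ρ) / ρ ^ a with hw2
  have hw2p : 0 < w2 := by
    have : 1 / ρ < 1 := by rw [div_lt_one hρ0]; exact hρ
    exact div_pos (by linarith) (by positivity)
  set d' : ℝ := min d w2 / 2 with hd'
  have hd'p : 0 < d' := by
    have := lt_min hd hw2p
    simp only [hd']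
    linarith
  have hd1 : 2 * d' ≤ d := by
    have := min_le_left d w2
    simp only [hd']
    linarith
  have hd2 : 2 * d' ≤ w2 := by
    have := min_le_right d w2
    simp only [hd']
    linarith
  set K : ℝ := (2 * ((a + c : ℕ) : ℝ) + 1) * |κ| + 2 with hK
  obtain ⟨N0, hN0⟩ : ∃ N0 : ℕ, ∀ n, N0 ≤ n → K / d' ≤ ρ ^ n := by
    have := tendsto_pow_atTop_atTop_of_one_lt hρ
    exact Filter.eventually_atTop.1 (this.eventually_ge_atTop (K / d'))
  refine ⟨d', N0, hd'p, fun n m hn hnm hmn hmP hEm I c0 hI hc0 hnI hne hq => ?_⟩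
  have hKn : K ≤ d' * ρ ^ n := by
    have := hN0 n hn
    rwa [div_le_iff₀ hd'p, mul_comm] at this
  have hcard : (I.card : ℝ) * |κ| ≤ (2 * ((a + c : ℕ) : ℝ) + 1) * |κ| := by
    refine mul_le_mul_of_nonneg_right ?_ (abs_nonneg _)
    exact_mod_cast card_act (r := a + c) (by omega) hI
  have hqq : ∀ b i, some (b, i) ∈ I → ρ ^ re (P b) (n + c) i + κ ≤ qq ρ P m (n + c) κ c0 := by
    intro b i h
    exact hq _ h
  rcases c0 with _ | ⟨b0, i0⟩
  · exfalso
    obtain ⟨x, hx⟩ := hne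
    rcases x with _ | ⟨b, i⟩
    · exact hnI hx
    · have h1 := hqq b i hx
      simp only [qq] at h1
      have h2 := act_lt (hI _ hx)
      have h3 := (hI _ hx).1
      have h4 := pow_lt_pow_right₀ hρ (show m < re (P b) (n + c) i by omega)
      linarith
  have hend : ∀ b i, some (b, i) ∈ I → re (P b) (n + c) i ≤ re (P b0) (n + c) i0 := by
    intro b i h
    have h1 := hqq b i h
    simp only [qq] at h1
    exact (pow_le_pow_iff_right₀ hρ).1 (by linarith)
  have hlt := act_lt hc0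
  have hmi := hc0.1
  have hreH : re (P b0) (n + c) i0 ≤ n + c := re_le hc0.2.1.le
  have hgap := hEm (re (P b0) (n + c) i0) (by omega) hreH
  have hpp0 : ρ ^ i0 ≤ pp ρ (some (b0, i0)) := st_ge ρ b0 i0
  have hmpos : 0 < ρ ^ m := pow_pos hρ0 m
  have hnpos : 0 < ρ ^ n := pow_pos hρ0 n
  -- the sum without the special index
  have hsum : ∀ J : Finset (Option (Bool × ℕ)), J ⊆ I → none ∉ J →
      ∑ x ∈ J, (qq ρ P m (n + c) κ x - pp ρ x) ≤
        ∑ x ∈ J, ∑ p ∈ win P (n + c) x, (ρ ^ (p.2 + 1) - ρ ^ p.2) + J.card * |κ| := by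
    intro J hJ hnJ
    have h1 : ∑ x ∈ J, (qq ρ P m (n + c) κ x - pp ρ x) ≤
        ∑ x ∈ J, (∑ p ∈ win P (n + c) x, (ρ ^ (p.2 + 1) - ρ ^ p.2) + |κ|) := by
      refine Finset.sum_le_sum (fun x hx => ?_)
      rcases x with _ | ⟨b, i⟩
      · exact absurd hx hnJ
      · have := qq_pp_le (ρ := ρ) (κ := κ) (hI _ (hJ hx))
        have h2 := le_abs_self κ
        linarith
    rw [Finset.sum_add_distrib, Finset.sum_const, nsmul_eq_mul] at h1
    exact h1
  by_cases hnone : none ∈ I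
  · -- case A, the variable itself
    refine ⟨none, hnone, ?_⟩
    simp only [Option.map_none, Option.map_some, reduceCtorEq, if_false, add_zero]
    rw [← Finset.add_sum_erase I _ hnone]
    have h1 := hsum (I.erase none) (Finset.erase_subset _ _) (Finset.notMem_erase _ _)
    have h2 := main_A hρ hI hc0 hnI hend
    rw [← Finset.add_sum_erase I _ hnone] at h2
    have h3 : ((I.erase none).card : ℝ) + 1 = I.card := by
      rw [← Finset.card_erase_add_one hnone]
      push_cast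
      ring
    have h4 : (I.card : ℝ) * |κ| = ((I.erase none).card : ℝ) * |κ| + |κ| := by
      rw [← h3]; ring
    have h5 := le_abs_self κ
    have h7 : ∑ p ∈ win P (n + c) none, (ρ ^ (p.2 + 1) - ρ ^ p.2) = 0 := by
      simp [win]
    rw [h7, zero_add] at h2
    have h6 : qq ρ P m (n + c) κ none - pp ρ none = ρ ^ m + κ := by simp [qq, pp]
    rw [h6]
    nlinarith
  by_cases hB : ∀ x ∈ I, x.map Prod.fst = some b0
  · -- case B
    have hform : ∀ x ∈ I, ∃ i, x = some (b0, i) ∧ i < i0 := by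
      intro x hx
      rcases x with _ | ⟨b, i⟩
      · exact absurd hx hnone
      · have h1 := hB _ hx
        simp only [Option.map_some, Option.some.injEq] at h1
        subst h1
        refine ⟨i, rfl, ?_⟩
        have h2 : i ≠ i0 := by
          rintro rfl
          exact hnI hx
        by_contra hc
        have h3 : i0 < i := by omega
        have h4 := re_lt_of (H := n + c) h3 (hI _ hx).2.2.2
        have h5 := act_lt (hI _ hx)
        have h6 := hend _ _ hx
        omega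
    obtain ⟨x1, hx1, hmin⟩ := Finset.exists_min_image I (fun x => (x.map Prod.snd).getD 0) hne
    obtain ⟨i1, rfl, hi1⟩ := hform x1 hx1
    refine ⟨_, hx1, ?_⟩
    simp only [Option.map_some, if_true]
    have h1 := hsum I subset_rfl hnone
    have h2 := main_B (i1 := i1) hρ hI hne (fun x hx => by
      obtain ⟨i, rfl, hi⟩ := hform x hx
      have := hmin _ hx
      simp only [Option.map_some, Option.getD_some] at this
      exact ⟨i, rfl, this, hi⟩) hc0.2.2.2
    have h3 : pp ρ (some (b0, i1)) ≤ ρ ^ i1 + 2 := st_lt hρ0 b0 i1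
    have h4 : w2 * ρ ^ n ≤ ρ ^ i0 - ρ ^ (i0 - 1) := by
      obtain ⟨i', rfl⟩ : ∃ i', i0 = i' + 1 := ⟨i0 - 1, by omega⟩
      have e1 : ρ ^ n ≤ ρ ^ (i' + 1) * ρ ^ a := by
        rw [← pow_add]
        exact pow_le_pow_right₀ hρ.le (by omega)
      have e2 : ρ ^ (i' + 1) - ρ ^ (i' + 1 - 1) = (1 - 1 / ρ) * ρ ^ (i' + 1) := by
        rw [Nat.add_sub_cancel, pow_succ]
        field_simp
      rw [e2, hw2, div_mul_eq_mul_div, div_le_iff₀ (by positivity), mul_assoc]
      refine mul_le_mul_of_nonneg_left e1 ?_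
      have : 1 / ρ < 1 := by rw [div_lt_one hρ0]; exact hρ
      linarith
    nlinarith
  · -- case A, another base
    push Not at hB
    obtain ⟨x1, hx1, hb1⟩ := hB
    refine ⟨x1, hx1, ?_⟩
    rw [if_neg (by simpa using hb1)]
    have h1 := hsum I subset_rfl hnone
    have h2 := main_A hρ hI hc0 hnI hend
    nlinarith

end Pool.Agent.Helper73.Dn
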