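import Pool.Agent.Helper73.Dn.Lem

/-!
# Density law (MP_70814c_an): a sharp form of Kronecker's theorem
-/

set_option autoImplicit false

open Pool.Agent.Helper17.Rg

namespace Pool.Agent.Helper73.Dn

/-- `exp (2 π i y)` -/
noncomputable def ee (y : ℝ) : ℂ := Complex.exp (2 * Real.pi * (y : ℝ) * Complex.I)

theorem ee_add (x y : ℝ) : ee (x + y) = ee x * ee y := by
  unfold ee
  rw [← Complex.exp_add]
  congr 1
  push_cast
  ring

theorem ee_nat (n : ℕ) (y : ℝ) : ee (n * y) = ee y ^ n := by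
  unfold ee
  rw [← Complex.exp_nat_mul]
  congr 1
  push_cast
  ring

theorem ee_norm (y : ℝ) : ‖ee y‖ = 1 := by
  unfold ee
  have : (2 * Real.pi * (y : ℝ) * Complex.I : ℂ) = ((2 * Real.pi * y : ℝ) : ℂ) * Complex.I := by
    push_cast; ring
  rw [this, Complex.norm_exp_ofReal_mul_I]

theorem ee_int (z : ℤ) : ee z = 1 := by
  unfold ee
  rw [Complex.exp_eq_one_iff]
  exact ⟨z, by push_cast; ring⟩

theorem ee_sum {ι : Type} (s : Finset ι) (f : ι → ℝ) : ee (∑ i ∈ s, f i) = ∏ i ∈ s, ee (f i) := by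
  classical
  induction s using Finset.induction_on with
  | empty => simpa using ee_int 0
  | insert a s ha ih => rw [Finset.sum_insert ha, Finset.prod_insert ha, ee_add, ih]

theorem ee_ge (y : ℝ) : 4 * di y ≤ ‖ee y - 1‖ := by
  have h1 : ee y = ee (y - round y) := by
    have h2 : y = (y - round y) + (round y : ℤ) := by ring
    conv_lhs => rw [h2]
    rw [ee_add, ee_int, mul_one]
  rw [h1]
  set x := y - round y with hx
  have h2 : ee x - 1 = Complex.exp (Complex.I * ((2 * Real.pi * x : ℝ) : ℂ)) - 1 := by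
    unfold ee
    congr 2
    push_cast
    ring
  rw [h2, Complex.norm_exp_I_mul_ofReal_sub_one, norm_mul, Real.norm_eq_abs, Real.norm_eq_abs,
    abs_two]
  have h3 : 2 * Real.pi * x / 2 = Real.pi * x := by ring
  rw [h3]
  have h4 : |Real.sin (Real.pi * x)| = |Real.sin (Real.pi * |x|)| := by
    rcases abs_choice x with h | h
    · rw [h]
    · rw [h, mul_neg, Real.sin_neg, abs_neg]
  rw [h4]
  have hπ := Real.pi_pos
  have h5 : |x| ≤ 1 / 2 := abs_sub_round y
  have h6 := Real.mul_le_sin (x := Real.pi * |x|) (by positivity) (by nlinarith)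
  have h7 : 2 / Real.pi * (Real.pi * |x|) = 2 * |x| := by field_simp
  rw [h7] at h6
  have h8 := le_abs_self (Real.sin (Real.pi * |x|))
  show 4 * |x| ≤ _
  linarith

/-- the kernel identity -/
theorem shift (M : ℕ) (w : ℂ) (K : ℕ) :
    (w - 1) * ∑ n ∈ Finset.range K, (((n : ℂ) + 1) * (M - n)) * w ^ n =
      ∑ n ∈ Finset.range K, (2 * (n : ℂ) - M) * w ^ n + K * (M - K + 1) * w ^ K := by
  induction K with
  | zero => simp
  | succ K ih =>
    rw [Finset.sum_range_succ, Finset.sum_range_succ, mul_add, ih]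
    push_cast
    ring

theorem shift' (M : ℕ) (w : ℂ) :
    (w - 1) * ∑ n ∈ Finset.range (M + 1), (((((n : ℝ) + 1) * (M - n) : ℝ)) : ℂ) * w ^ n =
      ∑ n ∈ Finset.range (M + 1), ((2 * (n : ℝ) - M : ℝ) : ℂ) * w ^ n := by
  have h := shift M w (M + 1)
  push_cast at h ⊢
  rw [h]
  ring

/-- Parseval for products -/
theorem pl (h1 : Pars) {ι : Type} [Fintype ι] [DecidableEq ι] (ξ : ι → ℤ) (M : ι → ℕ) (β : ι → ℝ)
    (hrel : ∀ c : ι → ℤ, (∀ i, |c i| ≤ M i) → ∑ i, c i * ξ i = 0 → c = 0) :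
    ∃ q : ℕ, 0 < q ∧ ∀ co : ι → ℕ → ℝ,
      ∑ h ∈ Finset.range q, ‖∏ i, ∑ n ∈ Finset.range (M i + 1),
        (co i n : ℂ) * ee (ξ i * (h / q : ℝ) - β i) ^ n‖ ^ 2 =
      q * ∏ i, ∑ n ∈ Finset.range (M i + 1), (co i n) ^ 2 := by
  obtain ⟨q, hq, hP⟩ := h1 ((i : ι) → Fin (M i + 1)) (fun j => ∑ i, ((j i : ℕ) : ℤ) * ξ i) (by
    intro j j' hjj
    have h2 := hrel (fun i => ((j i : ℕ) : ℤ) - ((j' i : ℕ) : ℤ)) (fun i => by
      have e1 := (j i).2
      have e2 := (j' i).2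
      rw [abs_le]
      omega) (by
      simp only at hjj
      simp only [sub_mul]
      rw [Finset.sum_sub_distrib, hjj, sub_self])
    funext i
    have h3 := congrFun h2 i
    simp only [Pi.zero_apply] at h3
    ext
    omega)
  refine ⟨q, hq, fun co => ?_⟩
  have h2 := hP (fun j => ∏ i, ((co i (j i) : ℂ) * ee (-((j i : ℕ) * β i))))
  have h3 : ∀ z : ℝ, ∑ j : ((i : ι) → Fin (M i + 1)),
      (∏ i, ((co i (j i) : ℂ) * ee (-((j i : ℕ) * β i)))) *
        Complex.exp (2 * Real.pi * (((∑ i, ((j i : ℕ) : ℤ) * ξ i : ℤ) * z : ℝ)) * Complex.I) =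
      ∏ i, ∑ n ∈ Finset.range (M i + 1), (co i n : ℂ) * ee (ξ i * z - β i) ^ n := by
    intro z
    have h4 : ∀ i, ∑ n ∈ Finset.range (M i + 1), (co i n : ℂ) * ee (ξ i * z - β i) ^ n =
        ∑ n : Fin (M i + 1), (co i n : ℂ) * ee (ξ i * z - β i) ^ (n : ℕ) := fun i =>
      (Fin.sum_univ_eq_sum_range (fun n => (co i n : ℂ) * ee (ξ i * z - β i) ^ n) (M i + 1)).symm
    simp only [h4]
    rw [Finset.prod_univ_sum, Fintype.piFinset_univ]
    refine Finset.sum_congr rfl (fun j _ => ?_)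
    have h5 : Complex.exp (2 * Real.pi * (((∑ i, ((j i : ℕ) : ℤ) * ξ i : ℤ) * z : ℝ)) * Complex.I) =
        ∏ i, ee ((j i : ℕ) * (ξ i * z)) := by
      rw [← ee_sum]
      unfold ee
      congr 3
      push_cast
      rw [Finset.sum_mul]
      refine Finset.sum_congr rfl (fun i _ => ?_)
      ring
    rw [h5, ← Finset.prod_mul_distrib]
    refine Finset.prod_congr rfl (fun i _ => ?_)
    rw [← ee_nat, mul_assoc, ← ee_add]
    congr 2
    ring
  have h4 : ∀ j : ((i : ι) → Fin (M i + 1)),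
      ‖∏ i, ((co i (j i) : ℂ) * ee (-((j i : ℕ) * β i)))‖ ^ 2 = ∏ i, (co i (j i)) ^ 2 := by
    intro j
    rw [norm_prod, ← Finset.prod_pow]
    refine Finset.prod_congr rfl (fun i _ => ?_)
    rw [norm_mul, ee_norm, mul_one, Complex.norm_real, Real.norm_eq_abs, sq_abs]
  have h5 : ∏ i, ∑ n ∈ Finset.range (M i + 1), (co i n) ^ 2 =
      ∑ j : ((i : ι) → Fin (M i + 1)), ∏ i, (co i (j i)) ^ 2 := by
    have h6 : ∀ i, ∑ n ∈ Finset.range (M i + 1), (co i n) ^ 2 =
        ∑ n : Fin (M i + 1), (co i n) ^ 2 := fun i =>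
      (Fin.sum_univ_eq_sum_range (fun n => (co i n) ^ 2) (M i + 1)).symm
    simp only [h6]
    rw [Finset.prod_univ_sum, Fintype.piFinset_univ]
  rw [h5]
  simp only [h4] at h2
  rw [← h2]
  refine Finset.sum_congr rfl (fun h _ => ?_)
  rw [h3]

theorem kron (h1 : Pars) (h2 : Ker) : Kron := by
  intro ι _ _ _ ξ M β hM hrel
  obtain ⟨q, hq, hP⟩ := pl h1 ξ M β hrel
  set w : ι → ℕ → ℂ := fun i h => ee (ξ i * (h / q : ℝ) - β i) with hw
  set a : ι → ℕ → ℝ := fun i n => ((n : ℝ) + 1) * (M i - n) with ha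
  set b : ι → ℕ → ℝ := fun i n => 2 * (n : ℝ) - M i with hb
  set PP : ℕ → ℂ := fun h => ∏ i, ∑ n ∈ Finset.range (M i + 1), (a i n : ℂ) * w i h ^ n with hPP
  have hapos : ∀ i, 0 < ∑ n ∈ Finset.range (M i + 1), (a i n) ^ 2 := by
    intro i
    have e1 : (a i 0) ^ 2 ≤ ∑ n ∈ Finset.range (M i + 1), (a i n) ^ 2 :=
      Finset.single_le_sum (f := fun n => (a i n) ^ 2) (fun n _ => sq_nonneg _)
        (Finset.mem_range.2 (by omega))
    have e2 : (1 : ℝ) ≤ M i := by exact_mod_cast hM i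
    have e3 : 0 < (a i 0) ^ 2 := by
      simp only [ha]
      push_cast
      have : (0 + 1) * ((M i : ℝ) - 0) = M i := by ring
      rw [this]
      positivity
    linarith
  -- the shifted sums
  have hsh : ∀ i, (M i : ℝ) ^ 2 * ∑ h ∈ Finset.range q, ‖(w i h - 1) * PP h‖ ^ 2 ≤
      10 * ∑ h ∈ Finset.range q, ‖PP h‖ ^ 2 := by
    intro i
    have e1 : ∀ h, (w i h - 1) * PP h = ∏ i', ∑ n ∈ Finset.range (M i' + 1),
        ((Function.update a i (b i) i' n : ℝ) : ℂ) * w i' h ^ n := by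
      intro h
      rw [hPP]
      simp only
      rw [← Finset.mul_prod_erase Finset.univ _ (Finset.mem_univ i), ← mul_assoc,
        ← Finset.mul_prod_erase Finset.univ
          (fun i' => ∑ n ∈ Finset.range (M i' + 1),
            ((Function.update a i (b i) i' n : ℝ) : ℂ) * w i' h ^ n) (Finset.mem_univ i)]
      congr 1
      · rw [Function.update_self]
        exact shift' (M i) (w i h)
      · refine Finset.prod_congr rfl (fun i' hi' => ?_)
        rw [Function.update_of_ne (Finset.ne_of_mem_erase hi')]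
    have e2 := hP (Function.update a i (b i))
    have e3 := hP a
    rw [show ∑ h ∈ Finset.range q, ‖(w i h - 1) * PP h‖ ^ 2 = _ from
      (Finset.sum_congr rfl (fun h _ => by rw [e1 h])).trans e2]
    rw [show ∑ h ∈ Finset.range q, ‖PP h‖ ^ 2 = _ from e3]
    rw [← Finset.mul_prod_erase Finset.univ _ (Finset.mem_univ i),
      ← Finset.mul_prod_erase Finset.univ
        (fun i' => ∑ n ∈ Finset.range (M i' + 1), (a i' n) ^ 2) (Finset.mem_univ i)]
    have e4 : ∏ i' ∈ Finset.univ.erase i, ∑ n ∈ Finset.range (M i' + 1),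
        (Function.update a i (b i) i' n) ^ 2 =
        ∏ i' ∈ Finset.univ.erase i, ∑ n ∈ Finset.range (M i' + 1), (a i' n) ^ 2 := by
      refine Finset.prod_congr rfl (fun i' hi' => ?_)
      rw [Function.update_of_ne (Finset.ne_of_mem_erase hi')]
    rw [e4, Function.update_self]
    have e5 : 0 ≤ ∏ i' ∈ Finset.univ.erase i, ∑ n ∈ Finset.range (M i' + 1), (a i' n) ^ 2 :=
      Finset.prod_nonneg (fun i' _ => (hapos i').le)
    have e6 : (M i : ℝ) ^ 2 * ∑ n ∈ Finset.range (M i + 1), (b i n) ^ 2 ≤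
        10 * ∑ n ∈ Finset.range (M i + 1), (a i n) ^ 2 := by
      have e7 := h2 (M i)
      have e8 : ∑ n ∈ Finset.range (M i + 1), (b i n) ^ 2 =
          ∑ n ∈ Finset.range (M i + 1), ((M i : ℝ) - 2 * n) ^ 2 :=
        Finset.sum_congr rfl (fun n _ => by simp only [hb]; ring)
      rw [e8]
      exact e7
    have e7 := mul_le_mul_of_nonneg_right e6 e5
    have e8 := mul_le_mul_of_nonneg_left e7 (Nat.cast_nonneg (α := ℝ) q)
    linarith
  have hpos : 0 < ∑ h ∈ Finset.range q, ‖PP h‖ ^ 2 := by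
    rw [show ∑ h ∈ Finset.range q, ‖PP h‖ ^ 2 = _ from hP a]
    have := Finset.prod_pos (fun i (_ : i ∈ Finset.univ) => hapos i)
    have hq' : (0 : ℝ) < q := by exact_mod_cast hq
    positivity
  by_contra hcon
  push Not at hcon
  have hcardpos : (1 : ℝ) ≤ Fintype.card ι := by exact_mod_cast Fintype.card_pos (α := ι)
  have hbig : ∀ h : ℕ, (16 : ℝ) * Fintype.card ι * ‖PP h‖ ^ 2 ≤
      ∑ i, (M i : ℝ) ^ 2 * ‖(w i h - 1) * PP h‖ ^ 2 := by
    intro h
    obtain ⟨i, hi⟩ := hcon (h / q : ℝ)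
    refine le_trans ?_ (Finset.single_le_sum
      (f := fun i => (M i : ℝ) ^ 2 * ‖(w i h - 1) * PP h‖ ^ 2)
      (fun i _ => by positivity) (Finset.mem_univ i))
    rw [norm_mul, mul_pow, ← mul_assoc]
    refine mul_le_mul_of_nonneg_right ?_ (sq_nonneg _)
    have e1 := ee_ge (ξ i * (h / q : ℝ) - β i)
    have e2 : (4 : ℝ) * Fintype.card ι ≤ M i * ‖w i h - 1‖ := by
      have e3 := mul_le_mul_of_nonneg_left e1 (Nat.cast_nonneg (α := ℝ) (M i))
      simp only [hw]
      linarith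
    have e3 := pow_le_pow_left₀ (by positivity) e2 2
    rw [mul_pow, mul_pow] at e3
    nlinarith
  have hs1 := Finset.sum_le_sum (fun h (_ : h ∈ Finset.range q) => hbig h)
  rw [← Finset.mul_sum, Finset.sum_comm] at hs1
  have hs2 : ∑ i, ∑ h ∈ Finset.range q, (M i : ℝ) ^ 2 * ‖(w i h - 1) * PP h‖ ^ 2 ≤
      ∑ _i : ι, 10 * ∑ h ∈ Finset.range q, ‖PP h‖ ^ 2 := by
    refine Finset.sum_le_sum (fun i _ => ?_)
    rw [← Finset.mul_sum]
    exact hsh i
  rw [Finset.sum_const, Finset.card_univ, nsmul_eq_mul] at hs2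
  nlinarith

end Pool.Agent.Helper73.Dn
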