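import Pool.Agent.Helper73.Dn.Lem

/-!
# Density law (MP_70814c_an): reformulation with upper limits of densities
-/

set_option autoImplicit false

open MeasureTheory Filter Topology Pool.Agent.Helper66.Rig

namespace Pool.Agent.Helper73.Dn

/-- `D (n) + D (θ n)`, `D (x) = |S ∩ [0, x)| / x` -/
noncomputable def dd (S : Set ℕ) (n : ℕ) : ℝ :=
  (cnt S n : ℝ) / n + (cnt S ⌊n * Real.log 3 / Real.log 2⌋₊ : ℝ) / (n * Real.log 3 / Real.log 2)

theorem cnt_le' (S : Set ℕ) (n : ℕ) : cnt S n ≤ n := by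
  unfold cnt
  calc (S ∩ Set.Iio n).ncard ≤ (Set.Iio n).ncard :=
        Set.ncard_le_ncard Set.inter_subset_right (Set.finite_Iio n)
    _ = n := by rw [← Finset.coe_Iio, Set.ncard_coe_finset, Nat.card_Iio]

theorem dd_nonneg (S : Set ℕ) (n : ℕ) : 0 ≤ dd S n := by
  have h3 : 0 < Real.log 3 := Real.log_pos (by norm_num)
  have h2 : 0 < Real.log 2 := Real.log_pos (by norm_num)
  unfold dd
  positivity

theorem dd_le (S : Set ℕ) (n : ℕ) : dd S n ≤ 2 := by
  have h3 : 0 < Real.log 3 := Real.log_pos (by norm_num)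
  have h2 : 0 < Real.log 2 := Real.log_pos (by norm_num)
  have ha : (cnt S n : ℝ) / n ≤ 1 := div_le_one_of_le₀ (by exact_mod_cast cnt_le' S n) (by positivity)
  have hb : (cnt S ⌊n * Real.log 3 / Real.log 2⌋₊ : ℝ) / (n * Real.log 3 / Real.log 2) ≤ 1 := by
    refine div_le_one_of_le₀ ?_ (by positivity)
    refine le_trans ?_ (Nat.floor_le (by positivity : (0 : ℝ) ≤ n * Real.log 3 / Real.log 2))
    exact_mod_cast cnt_le' S _
  unfold dd
  linarith

theorem budget_eq (S : Set ℕ) {n : ℕ} (hn : 1 ≤ n) : budget S n = dd S n * (n * Real.log 3) := by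
  have h3 : 0 < Real.log 3 := Real.log_pos (by norm_num)
  have h2 : 0 < Real.log 2 := Real.log_pos (by norm_num)
  have hn' : (0 : ℝ) < n := by exact_mod_cast hn
  unfold budget dd
  field_simp
  ring

theorem bdd_dd (S : Set ℕ) : IsBoundedUnder (· ≤ ·) atTop (dd S) :=
  isBoundedUnder_of ⟨2, dd_le S⟩

theorem cobdd_dd (S : Set ℕ) : IsCoboundedUnder (· ≤ ·) atTop (dd S) :=
  (isBoundedUnder_of ⟨0, dd_nonneg S⟩ : IsBoundedUnder (· ≥ ·) atTop (dd S)).isCoboundedUnder_le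

theorem up_of_limsup {S : Set ℕ} (h : 1 < limsup (dd S) atTop) :
    ∃ δ : ℝ, 0 < δ ∧ ∀ n0 : ℕ, ∃ n : ℕ, n0 ≤ n ∧ (1 + δ) * (n * Real.log 3) ≤ budget S n := by
  obtain ⟨b, hb1, hb2⟩ := exists_between h
  refine ⟨b - 1, by linarith, fun n0 => ?_⟩
  obtain ⟨n, hn, hlt⟩ := frequently_atTop.1 (frequently_lt_of_lt_limsup (cobdd_dd S) hb2) (max n0 1)
  have h3 : 0 < Real.log 3 := Real.log_pos (by norm_num)
  refine ⟨n, le_trans (le_max_left _ _) hn, ?_⟩
  rw [budget_eq S (le_trans (le_max_right _ _) hn)]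
  exact mul_le_mul_of_nonneg_right (by linarith) (by positivity)

theorem lo_of_limsup {S : Set ℕ} (h : limsup (dd S) atTop < 1) :
    ∃ (δ : ℝ) (n0 : ℕ), 0 < δ ∧ ∀ n : ℕ, n0 ≤ n → budget S n ≤ (1 - δ) * (n * Real.log 3) := by
  obtain ⟨b, hb1, hb2⟩ := exists_between h
  obtain ⟨n0, hn0⟩ := eventually_atTop.1 (eventually_lt_of_limsup_lt hb1 (bdd_dd S))
  have h3 : 0 < Real.log 3 := Real.log_pos (by norm_num)
  refine ⟨1 - b, max n0 1, by linarith, fun n hn => ?_⟩
  rw [budget_eq S (le_trans (le_max_right _ _) hn)]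
  exact mul_le_mul_of_nonneg_right
    (by have := hn0 n (le_trans (le_max_left _ _) hn); linarith) (by positivity)

end Pool.Agent.Helper73.Dn
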