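import Pool.Agent.Helper73.Dn.Lem
import Pool.Agent.Helper66.Rig.Scheme
import Pool.Agent.Helper66.Rig.Push

/-!
# Density law (MP_70814c_an): the lower part from the extension step and the blocks
-/

set_option autoImplicit false

open Pool.Agent.Helper17.Rg Pool.Agent.Helper66.Rig

namespace Pool.Agent.Helper73.Dn

theorem di_lip (x y : ℝ) : di x ≤ di y + |x - y| := by
  refine (di_le_int x (round y)).trans ?_
  have : x - round y = (y - round y) + (x - y) := by ring
  rw [this]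
  exact abs_add_le _ _

theorem exists_block {ρ y : ℝ} (hρ : 1 < ρ) {m m' : ℕ} (h1 : ρ ^ m ≤ y) (h2 : y < ρ ^ m') :
    ∃ i, m ≤ i ∧ i < m' ∧ ρ ^ i ≤ y ∧ y < ρ ^ (i + 1) := by
  classical
  have hex : ∃ i, y < ρ ^ i := ⟨m', h2⟩
  have hs := Nat.find_spec hex
  have hmin := fun k => @Nat.find_min _ _ hex k
  have hle : Nat.find hex ≤ m' := Nat.find_min' hex h2
  set i := Nat.find hex with hi
  have hmi : m < i := by
    by_contra hc
    push Not at hc
    have := pow_le_pow_right₀ hρ.le hc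
    linarith
  refine ⟨i - 1, by omega, by omega, ?_, ?_⟩
  · exact not_lt.1 (hmin (i - 1) (by omega))
  · rw [show i - 1 + 1 = i by omega]; exact hs

theorem exp_three : (8 : ℝ) < Real.exp 3 := by
  have h := Real.exp_one_gt_d9
  have : Real.exp 3 = Real.exp 1 ^ 3 := by rw [← Real.exp_nat_mul]; norm_num
  rw [this]
  calc (8 : ℝ) = 2 ^ 3 := by norm_num
    _ < Real.exp 1 ^ 3 := pow_lt_pow_left₀ (by linarith) (by norm_num) (by norm_num)

theorem low (h1 : BStage) (h2 : Blk) : Low := by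
  intro S hT δ n0 hδ hb
  obtain ⟨ρ, P, δ', n1, hρ, hδ', hE, hSP⟩ := h2 S hT δ n0 hδ hb
  obtain ⟨a, ha⟩ := h1 ρ P δ' n1 hρ hδ' hE
  obtain ⟨N0, C, hC⟩ := ha (a + 3)
  have hρ0 : 0 < ρ := by linarith
  obtain ⟨N1, hN1⟩ : ∃ N1 : ℕ, ∀ n, N1 ≤ n → 3 ≤ ρ ^ n ∧ 3 / (ρ - 1) ≤ ρ ^ n := by
    have := tendsto_pow_atTop_atTop_of_one_lt hρ
    have h5 := (this.eventually_ge_atTop 3).and (this.eventually_ge_atTop (3 / (ρ - 1)))
    exact Filter.eventually_atTop.1 h5
  set nn : ℕ → ℕ := fun j => max N0 (N1 + a) + j * (a + 1) with hnn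
  have hnnS : ∀ j, nn (j + 1) = nn j + (a + 1) := fun j => by simp only [hnn]; ring
  have hnn0 : ∀ j, N0 ≤ nn j ∧ N1 + a ≤ nn j := fun j => by simp only [hnn]; omega
  have hst := fun j => hC (nn j) (hnn0 j).1
  choose m hm1 hm2 hm3 hm4 using hst
  have hmlt : ∀ j, m j + 1 ≤ m (j + 1) := fun j => by
    have e1 := hm1 (j + 1)
    have e2 := hm2 j
    rw [hnnS] at e1
    omega
  have hmL : ∀ j, m (j + 1) < nn j + (a + 1) := fun j => by
    have e1 := hm2 (j + 1)
    rwa [hnnS] at e1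
  have hmN : ∀ j, N1 ≤ m j := fun j => by
    have e1 := hm1 j
    have e2 := (hnn0 j).2
    omega
  have hmono : StrictMono m := strictMono_nat_of_lt_succ (fun j => hmlt j)
  set K : ℝ := |C| + 8 with hK
  have hK0 : 0 < K := by positivity
  -- sizes
  have hdec : ∀ j, 8 * Real.exp (-ρ ^ m (j + 1)) ≤ Real.exp (-ρ ^ m j) := by
    intro j
    have e1 : ρ ^ (m j + 1) ≤ ρ ^ m (j + 1) := pow_le_pow_right₀ hρ.le (hmlt j)
    have e2 := (hN1 (m j) (hmN j)).2
    rw [div_le_iff₀ (by linarith)] at e2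
    rw [pow_succ] at e1
    have e3 : Real.exp (-ρ ^ m j) = Real.exp 3 * Real.exp (-ρ ^ m j - 3) := by
      rw [← Real.exp_add]; ring_nf
    rw [e3]
    refine mul_le_mul exp_three.le (Real.exp_le_exp.2 (by linarith)) (Real.exp_pos _).le
      (Real.exp_pos _).le
  set Pr : ℕ → ℝ → Prop := fun j x => ∀ b : Bool, ∀ k ∈ S, ρ ^ m j ≤ k * Real.log (gb b) →
    (k : ℝ) * Real.log (gb b) < ρ ^ m (j + 1) →
      di ((gb b : ℝ) ^ k * x) ≤ K * Real.exp (-((ρ - 1) * (k * Real.log (gb b)))) with hPr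
  -- the step
  have hstep : ∀ j, ∀ x0 : ℝ, ∃ z : ℝ, Real.exp (-ρ ^ m j) ≤ z ∧ z ≤ 3 * Real.exp (-ρ ^ m j) ∧
      ∀ x, x0 + z ≤ x → x ≤ x0 + z + 8 * Real.exp (-ρ ^ m (j + 1)) → Pr j x := by
    intro j x0
    obtain ⟨z, hz1, hz2, hz3⟩ := hm4 j x0
    refine ⟨z, hz1, hz2, fun x hx1 hx2 b k hkS hk1 hk2 => ?_⟩
    obtain ⟨i, hi1, hi2, hi3, hi4⟩ := exists_block hρ hk1 hk2
    obtain ⟨hiP, hiP1⟩ := hSP b k i hkS hi3 hi4
    have hne : i + 1 ≠ m (j + 1) := by
      intro hc
      rw [hc] at hiP1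
      exact hm3 (j + 1) b hiP1
    have hle : i + 2 ≤ m (j + 1) := by omega
    have h3 := hz3 b i hi1 (by have := hmL j; omega) hiP hiP1 k hi3 hi4
    have h4 := di_lip ((gb b : ℝ) ^ k * x) ((gb b : ℝ) ^ k * (x0 + z))
    have h5 : |(gb b : ℝ) ^ k * x - (gb b : ℝ) ^ k * (x0 + z)| ≤
        8 * Real.exp (-(ρ ^ (i + 2) - ρ ^ (i + 1))) := by
      rw [← mul_sub, abs_mul, abs_of_pos (pow_pos (gb_pos b) k), abs_of_nonneg (by linarith),
        gb_pow b k]
      have h6 : x - (x0 + z) ≤ 8 * Real.exp (-ρ ^ (i + 2)) := by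
        have h7 : ρ ^ (i + 2) ≤ ρ ^ m (j + 1) := pow_le_pow_right₀ hρ.le hle
        have h8 := Real.exp_le_exp.2 (neg_le_neg h7)
        linarith
      calc Real.exp (k * Real.log (gb b)) * (x - (x0 + z))
          ≤ Real.exp (ρ ^ (i + 1)) * (8 * Real.exp (-ρ ^ (i + 2))) :=
            mul_le_mul (Real.exp_le_exp.2 hi4.le) h6 (by linarith) (Real.exp_pos _).le
        _ = 8 * Real.exp (-(ρ ^ (i + 2) - ρ ^ (i + 1))) := by
            rw [mul_left_comm, ← Real.exp_add]; ring_nf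
    have h6 : C * Real.exp (-(ρ ^ (i + 2) - ρ ^ (i + 1))) ≤
        |C| * Real.exp (-(ρ ^ (i + 2) - ρ ^ (i + 1))) :=
      mul_le_mul_of_nonneg_right (le_abs_self C) (Real.exp_pos _).le
    have h7 : Real.exp (-(ρ ^ (i + 2) - ρ ^ (i + 1))) ≤
        Real.exp (-((ρ - 1) * (k * Real.log (gb b)))) := by
      refine Real.exp_le_exp.2 (neg_le_neg ?_)
      have h8 : ρ ^ (i + 2) - ρ ^ (i + 1) = (ρ - 1) * ρ ^ (i + 1) := by ring
      rw [h8]
      exact mul_le_mul_of_nonneg_left hi4.le (by linarith)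
    have h8 : K * Real.exp (-(ρ ^ (i + 2) - ρ ^ (i + 1))) ≤
        K * Real.exp (-((ρ - 1) * (k * Real.log (gb b)))) := mul_le_mul_of_nonneg_left h7 hK0.le
    refine le_trans ?_ h8
    rw [hK, add_mul]
    linarith
  obtain ⟨f, hf, hinj, hfb⟩ := scheme (fun j => 8 * Real.exp (-ρ ^ m j)) Pr
    (fun j => by positivity) (by
      intro j α _
      obtain ⟨z, hz1, hz2, hz3⟩ := hstep j α
      obtain ⟨z', hz1', hz2', hz3'⟩ := hstep j (α + 4 * Real.exp (-ρ ^ m j))
      have hd := hdec j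
      have hp := Real.exp_pos (-ρ ^ m j)
      refine ⟨α + z, α + 4 * Real.exp (-ρ ^ m j) + z', by linarith, ?_, ?_, hz3, hz3'⟩
      · show α + z + 8 * Real.exp (-ρ ^ m (j + 1)) < _
        linarith
      · show α + 4 * Real.exp (-ρ ^ m j) + z' + 8 * Real.exp (-ρ ^ m (j + 1)) ≤
          α + 8 * Real.exp (-ρ ^ m j)
        linarith)
  have hl0 : 8 * Real.exp (-ρ ^ m 0) < 1 := by
    have e1 := (hN1 (m 0) (hmN 0)).1
    have e2 : Real.exp (-ρ ^ m 0) ≤ Real.exp (-3) := Real.exp_le_exp.2 (by linarith)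
    have e3 : 8 * Real.exp (-3) < Real.exp 3 * Real.exp (-3) :=
      mul_lt_mul_of_pos_right exp_three (Real.exp_pos _)
    rw [← Real.exp_add, add_neg_cancel, Real.exp_zero] at e3
    linarith
  refine ⟨push f, push_cont hf hinj (fun t => ⟨(hfb t).1, lt_of_le_of_lt (hfb t).2.1 hl0⟩),
    4 * Real.pi * K + Real.pi * Real.exp ((ρ - 1) * ρ ^ m 0), (ρ - 1) * Real.log 2, ?_, ?_⟩
  · exact mul_pos (by linarith) (Real.log_pos (by norm_num))
  intro k hkS
  have hπ := Real.pi_pos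
  have hlog2 : 0 < Real.log 2 := Real.log_pos (by norm_num)
  by_cases hk : ρ ^ m 0 ≤ k * Real.log 2
  · -- late indices
    have hdi : ∀ b t, di ((gb b : ℝ) ^ k * f t) ≤
        K * Real.exp (-((ρ - 1) * (k * Real.log 2))) := by
      intro b t
      have hlb : Real.log 2 ≤ Real.log (gb b) := by
        cases b
        · simp [gb]
        · simp only [gb, if_true]
          exact Real.log_le_log (by norm_num) (by norm_num)
      have hkb : ρ ^ m 0 ≤ k * Real.log (gb b) :=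
        hk.trans (mul_le_mul_of_nonneg_left hlb (Nat.cast_nonneg _))
      obtain ⟨j, hj1, hj2⟩ : ∃ j, ρ ^ m j ≤ k * Real.log (gb b) ∧
          (k : ℝ) * Real.log (gb b) < ρ ^ m (j + 1) := by
        classical
        have hex : ∃ j, (k : ℝ) * Real.log (gb b) < ρ ^ m j := by
          have e1 := (tendsto_pow_atTop_atTop_of_one_lt hρ).comp hmono.tendsto_atTop
          exact (e1.eventually_gt_atTop _).exists
        have hs := Nat.find_spec hex
        have hmin := fun k => @Nat.find_min _ _ hex k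
        set j := Nat.find hex with hj
        have hj0 : j ≠ 0 := by
          intro hc
          rw [hc] at hs
          linarith
        obtain ⟨j', hj'⟩ := Nat.exists_eq_succ_of_ne_zero hj0
        refine ⟨j', not_lt.1 (hmin j' (by omega)), ?_⟩
        rw [hj'] at hs
        exact hs
      refine ((hfb t).2.2 j b k hkS hj1 hj2).trans ?_
      refine mul_le_mul_of_nonneg_left (Real.exp_le_exp.2 (neg_le_neg ?_)) hK0.le
      exact mul_le_mul_of_nonneg_left (mul_le_mul_of_nonneg_left hlb (Nat.cast_nonneg _))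
        (by linarith)
    have hcl := push_close hf (2 ^ k + 3 ^ k)
      (δ := 2 * (K * Real.exp (-((ρ - 1) * (k * Real.log 2))))) (by
        intro t
        refine ⟨round ((2 : ℝ) ^ k * f t) + round ((3 : ℝ) ^ k * f t), ?_⟩
        have e1 := hdi false t
        have e2 := hdi true t
        simp only [gb, di, Bool.false_eq_true, if_false, if_true, Nat.cast_ofNat] at e1 e2
        push_cast
        have e3 : ((2 : ℝ) ^ k + 3 ^ k) * f t -
            ((round ((2 : ℝ) ^ k * f t) : ℝ) + (round ((3 : ℝ) ^ k * f t) : ℝ)) =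
            ((2 : ℝ) ^ k * f t - round ((2 : ℝ) ^ k * f t)) +
            ((3 : ℝ) ^ k * f t - round ((3 : ℝ) ^ k * f t)) := by ring
        rw [e3]
        refine (abs_add_le _ _).trans ?_
        linarith)
    refine hcl.trans ?_
    have e1 : -((ρ - 1) * Real.log 2) * (k : ℝ) = -((ρ - 1) * (k * Real.log 2)) := by ring
    rw [e1, add_mul]
    have e2 : 0 ≤ Real.pi * Real.exp ((ρ - 1) * ρ ^ m 0) *
      Real.exp (-((ρ - 1) * (k * Real.log 2))) := by positivity
    linarith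
  · push Not at hk
    have hcl := push_close hf (2 ^ k + 3 ^ k) (δ := 1 / 2) (by
        intro t
        exact ⟨round (((2 ^ k + 3 ^ k : ℕ) : ℝ) * f t), abs_sub_round _⟩)
    refine hcl.trans ?_
    have e1 : -((ρ - 1) * Real.log 2) * (k : ℝ) = -((ρ - 1) * (k * Real.log 2)) := by ring
    rw [e1, add_mul]
    have e2 : 0 ≤ 4 * Real.pi * K * Real.exp (-((ρ - 1) * (k * Real.log 2))) := by positivity
    have e3 : 1 ≤ Real.exp ((ρ - 1) * ρ ^ m 0) * Real.exp (-((ρ - 1) * (k * Real.log 2))) := by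
      rw [← Real.exp_add]
      refine Real.one_le_exp ?_
      have := mul_le_mul_of_nonneg_left hk.le (by linarith : (0 : ℝ) ≤ ρ - 1)
      linarith
    have e4 := mul_le_mul_of_nonneg_left e3 hπ.le
    rw [mul_one, ← mul_assoc] at e4
    linarith

end Pool.Agent.Helper73.Dn
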