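import Pool.Agent.Helper73.Dn.Lem

/-!
# Density law (MP_70814c_an): small linear forms vanish
-/

set_option autoImplicit false

open Pool.Agent.Helper17.Rg

namespace Pool.Agent.Helper73.Dn

theorem det_updateRow_one {n : ℕ} (i : Fin n) (v : Fin n → ℚ) :
    (Matrix.updateRow (1 : Matrix (Fin n) (Fin n) ℚ) i v).det = v i := by
  rw [← Matrix.cramer_transpose_apply, Matrix.transpose_one, Matrix.cramer_one]
  rfl

theorem mulVec_updateRow_one {n : ℕ} (i : Fin n) (v x : Fin n → ℚ) (j : Fin n) :
    (Matrix.updateRow (1 : Matrix (Fin n) (Fin n) ℚ) i v).mulVec x j =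
      if j = i then ∑ c, v c * x c else x j := by
  simp only [Matrix.mulVec, dotProduct, Matrix.updateRow_apply, Matrix.one_apply]
  split_ifs with h
  · rfl
  · simp

/-- the data -/
def Dat (B t : ℝ) (R : ℕ) (g : Fin R → Bool) (l : Fin R → ℕ) (X : Fin R → ℚ) (s : Fin R → ℝ)
    (h : ℝ) : Prop :=
  (∀ c, (l c : ℝ) ≤ B * t ∧ |s c| ≤ B * t) ∧ |h| ≤ B * t ∧
    (∀ c, ∃ k : ℤ, X c * (gb (g c) : ℚ) ^ l c = k) ∧ (∀ c, |(X c : ℝ)| ≤ Real.exp (-s c))

/-- the inequalities -/
def Ine (δ t : ℝ) (R : ℕ) (g : Fin R → Bool) (lam : Fin R → ℚ) (l : Fin R → ℕ) (s : Fin R → ℝ)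
    (h : ℝ) : Prop :=
  ∀ I : Finset (Fin R), ∀ c0 ∈ I, (∀ c ∈ I, lam c ≠ 0 ∧ s c0 ≤ s c) →
    ∑ c ∈ I, (l c * Real.log (gb (g c)) - s c) + s c0 - h ≤ -δ * t

theorem Dat.sub {B t : ℝ} {R : ℕ} {g : Fin (R + 1) → Bool} {l : Fin (R + 1) → ℕ}
    {X : Fin (R + 1) → ℚ} {s : Fin (R + 1) → ℝ} {h : ℝ} (hD : Dat B t (R + 1) g l X s h)
    (c1 : Fin (R + 1)) :
    Dat B t R (g ∘ c1.succAbove) (l ∘ c1.succAbove) (X ∘ c1.succAbove) (s ∘ c1.succAbove) h :=
  ⟨fun c => hD.1 _, hD.2.1, fun c => hD.2.2.1 _, fun c => hD.2.2.2 _⟩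

theorem Ine.sub {δ t : ℝ} {R : ℕ} {g : Fin (R + 1) → Bool} {lam : Fin (R + 1) → ℚ}
    {l : Fin (R + 1) → ℕ} {s : Fin (R + 1) → ℝ} {h : ℝ} (hD : Ine δ t (R + 1) g lam l s h)
    (c1 : Fin (R + 1)) (mu : Fin R → ℚ) (hmu : ∀ c, mu c ≠ 0 → lam (c1.succAbove c) ≠ 0) :
    Ine δ t R (g ∘ c1.succAbove) mu (l ∘ c1.succAbove) (s ∘ c1.succAbove) h := by
  intro I c0 hc0 hI
  have h1 := hD (I.map c1.succAboveEmb) (c1.succAbove c0)
    (Finset.mem_map.2 ⟨c0, hc0, rfl⟩) (by
      intro c hc
      obtain ⟨c', hc', rfl⟩ := Finset.mem_map.1 hc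
      exact ⟨hmu _ (hI c' hc').1, (hI c' hc').2⟩)
  rw [Finset.sum_map] at h1
  exact h1

/-- `RELZ` for fixed data -/
def Rel (R : ℕ) (g : Fin R → Bool) (lam : Fin R → ℚ) (B δ : ℝ) : Prop :=
  ∃ t0 : ℝ, ∀ t : ℝ, t0 ≤ t → ∀ (l : Fin R → ℕ) (X : Fin R → ℚ) (s : Fin R → ℝ) (h : ℝ),
    Dat B t R g l X s h → |((∑ c, lam c * X c : ℚ) : ℝ)| ≤ Real.exp (-h) →
    Ine δ t R g lam l s h → ∑ c, lam c * X c = 0

theorem rel_all (hsub : SubZ) (B δ : ℝ) (hδ : 0 < δ) :
    ∀ (R : ℕ) (g : Fin R → Bool) (lam : Fin R → ℚ), Rel R g lam B δ := by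
  intro R
  induction R with
  | zero => exact fun g lam => ⟨0, fun t _ l X s h _ _ _ => by simp⟩
  | succ R ih =>
    intro g lam
    by_cases hz : ∃ c1, lam c1 = 0
    · obtain ⟨c1, hc1⟩ := hz
      obtain ⟨t0, ht0⟩ := ih (g ∘ c1.succAbove) (lam ∘ c1.succAbove)
      refine ⟨t0, fun t ht l X s h hD hh hI => ?_⟩
      have hs : ∑ c, lam c * X c = ∑ c, (lam ∘ c1.succAbove) c * (X ∘ c1.succAbove) c := by
        rw [Fin.sum_univ_succAbove _ c1, hc1]
        simp
      rw [hs] at hh ⊢
      exact ht0 t ht _ _ _ h (hD.sub c1) hh (hI.sub c1 _ (fun c hc => hc))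
    push Not at hz
    -- one more relation
    have hrel : ∀ u : Fin (R + 1) → ℚ, u ≠ 0 → ∃ t1 : ℝ, ∀ t : ℝ, t1 ≤ t →
        ∀ (l : Fin (R + 1) → ℕ) (X : Fin (R + 1) → ℚ) (s : Fin (R + 1) → ℝ) (h : ℝ),
        Dat B t (R + 1) g l X s h → |((∑ c, lam c * X c : ℚ) : ℝ)| ≤ Real.exp (-h) →
        Ine δ t (R + 1) g lam l s h → ∑ c, u c * X c = 0 → ∑ c, lam c * X c = 0 := by
      intro u hu
      obtain ⟨c1, hc1⟩ := Function.ne_iff.1 hu
      have hc1' : u c1 ≠ 0 := hc1
      set mu : Fin (R + 1) → ℚ := fun c => lam c - lam c1 / u c1 * u c with hmu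
      obtain ⟨t1, ht1⟩ := ih (g ∘ c1.succAbove) (mu ∘ c1.succAbove)
      refine ⟨t1, fun t ht l X s h hD hh hI huX => ?_⟩
      have hs1 : ∑ c, lam c * X c = ∑ c, mu c * X c := by
        simp only [hmu, sub_mul]
        rw [Finset.sum_sub_distrib]
        have : ∑ c, lam c1 / u c1 * u c * X c = lam c1 / u c1 * ∑ c, u c * X c := by
          rw [Finset.mul_sum]
          exact Finset.sum_congr rfl (fun c _ => by ring)
        rw [this, huX, mul_zero, sub_zero]
      have hs : ∑ c, lam c * X c = ∑ c, (mu ∘ c1.succAbove) c * (X ∘ c1.succAbove) c := by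
        rw [hs1, Fin.sum_univ_succAbove _ c1]
        have : mu c1 = 0 := by
          simp only [hmu]
          field_simp
          ring
        rw [this]
        simp
      rw [hs] at hh ⊢
      exact ht1 t ht _ _ _ h (hD.sub c1) hh (hI.sub c1 _ (fun c _ => hz _))
    choose! t1 ht1 using hrel
    have hS := fun c0 : Fin (R + 1) => hsub (R + 1) (by omega)
      (Matrix.updateRow (1 : Matrix (Fin (R + 1)) (Fin (R + 1)) ℚ) c0 lam) 1 1
      (by rw [det_updateRow_one]; exact hz c0) (by simp) (by simp) 1 one_pos (|B| + 1) δ hδ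
    choose t0 F hF hT using hS
    refine ⟨∑ c0, (|t0 c0| + ∑ u ∈ F c0, |t1 u|), fun t ht l X s h hD hh hI => ?_⟩
    have htc : ∀ c0, |t0 c0| + ∑ u ∈ F c0, |t1 u| ≤ t := by
      intro c0
      refine le_trans ?_ ht
      exact Finset.single_le_sum (f := fun c0 => |t0 c0| + ∑ u ∈ F c0, |t1 u|)
        (fun c _ => by positivity) (Finset.mem_univ c0)
    have ht0 : 0 ≤ t := le_trans (by positivity) (htc 0)
    obtain ⟨c0, -, hc0⟩ := Finset.exists_min_image Finset.univ s ⟨0, Finset.mem_univ _⟩
    have hBt : B * t ≤ (|B| + 1) * t := by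
      have := le_abs_self B
      exact mul_le_mul_of_nonneg_right (by linarith) ht0
    have hsum := hI Finset.univ c0 (Finset.mem_univ _) (fun c hc => ⟨hz c, hc0 c hc⟩)
    obtain ⟨hD1, hD2, hD3, hD4⟩ := hD
    obtain ⟨u, hu, huX⟩ := hT c0 t
      (le_trans (le_trans (le_abs_self _) (le_add_of_nonneg_right (by positivity))) (htc c0)) X
      (by
        intro i
        obtain ⟨k, hk⟩ := hD3 i
        rcases hg : g i with _ | _
        · rw [hg] at hk
          simp only [gb, Bool.false_eq_true, if_false, Nat.cast_ofNat] at hk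
          refine ⟨l i, k * 3 ^ l i, ?_⟩
          push_cast
          rw [← hk, show (6 : ℚ) = 2 * 3 by norm_num, mul_pow]
          ring
        · rw [hg] at hk
          simp only [gb, if_true, Nat.cast_ofNat] at hk
          refine ⟨l i, k * 2 ^ l i, ?_⟩
          push_cast
          rw [← hk, show (6 : ℚ) = 2 * 3 by norm_num, mul_pow]
          ring)
      (fun i => if i = c0 then -h else -s i)
      (fun i => if g i = false then -(l i : ℤ) else 0)
      (fun i => if g i = true then -(l i : ℤ) else 0)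
      (by
        intro i
        refine ⟨?_, ?_, ?_⟩
        · split_ifs
          · rw [abs_neg]; exact hD2.trans hBt
          · rw [abs_neg]; exact (hD1 i).2.trans hBt
        · split_ifs
          · push_cast
            rw [abs_neg, abs_of_nonneg (Nat.cast_nonneg _)]
            exact (hD1 i).1.trans hBt
          · simp only [Int.cast_zero, abs_zero]
            positivity
        · split_ifs
          · push_cast
            rw [abs_neg, abs_of_nonneg (Nat.cast_nonneg _)]
            exact (hD1 i).1.trans hBt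
          · simp only [Int.cast_zero, abs_zero]
            positivity)
      (by
        intro i
        rw [mulVec_updateRow_one]
        split_ifs
        · exact hh
        · exact hD4 i)
      (by
        intro i
        obtain ⟨k, hk⟩ := hD3 i
        rw [Matrix.one_mulVec]
        rcases hg : g i with _ | _
        · rw [hg] at hk
          simp only [gb, Bool.false_eq_true, if_false, Nat.cast_ofNat] at hk
          refine ⟨0, k, ?_⟩
          simp only [if_true, zpow_neg, zpow_natCast, Nat.cast_one, mul_one, pow_zero]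
          rw [← hk]
          field_simp
        · rw [hg] at hk
          simp only [gb, if_true, Nat.cast_ofNat] at hk
          refine ⟨l i, k, ?_⟩
          simp only [reduceCtorEq, if_false, zpow_zero, one_mul, Nat.cast_one, mul_one]
          exact hk)
      (by
        intro i
        obtain ⟨k, hk⟩ := hD3 i
        rw [Matrix.one_mulVec]
        rcases hg : g i with _ | _
        · rw [hg] at hk
          simp only [gb, Bool.false_eq_true, if_false, Nat.cast_ofNat] at hk
          refine ⟨l i, k, ?_⟩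
          simp only [Bool.false_eq_true, if_false, zpow_zero, one_mul, Nat.cast_one, mul_one]
          exact hk
        · rw [hg] at hk
          simp only [gb, if_true, Nat.cast_ofNat] at hk
          refine ⟨0, k, ?_⟩
          simp only [if_true, zpow_neg, zpow_natCast, Nat.cast_one, mul_one, pow_zero]
          rw [← hk]
          field_simp)
      (by
        have h1 : ∀ i, ((if i = c0 then -h else -s i) -
            ((if g i = false then -(l i : ℤ) else 0 : ℤ) : ℝ) * Real.log 2 -
            ((if g i = true then -(l i : ℤ) else 0 : ℤ) : ℝ) * Real.log 3) =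
            (l i * Real.log (gb (g i)) - s i) + (if i = c0 then s c0 - h else 0) := by
          intro i
          have h2 : (if i = c0 then -h else -s i) = -s i + (if i = c0 then s c0 - h else 0) := by
            split_ifs with h3
            · rw [h3]; ring
            · ring
          rw [h2]
          rcases hg : g i with _ | _
          · simp only [if_true, Bool.false_eq_true, if_false, gb]
            push_cast
            ring
          · simp only [if_true, reduceCtorEq, if_false, gb]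
            push_cast
            ring
        rw [Finset.sum_congr rfl (fun i _ => h1 i), Finset.sum_add_distrib,
          Finset.sum_ite_eq' Finset.univ c0 (fun _ => s c0 - h)]
        simp only [Finset.mem_univ, if_true]
        linarith)
    refine ht1 u (hF c0 u hu) t ?_ l X s h ⟨hD1, hD2, hD3, hD4⟩ hh hI huX
    have h2 : |t1 u| ≤ ∑ u ∈ F c0, |t1 u| :=
      Finset.single_le_sum (f := fun u => |t1 u|) (fun u _ => abs_nonneg _) hu
    have h3 := htc c0
    have h4 := abs_nonneg (t0 c0)
    have h5 := le_abs_self (t1 u)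
    linarith

theorem relZ (h : SubZ) : RelZ := by
  intro R g lam B δ hδ
  obtain ⟨t0, ht0⟩ := rel_all h B δ hδ R g lam
  refine ⟨t0, fun t ht l X s h h1 h2 h3 h4 h5 h6 => ?_⟩
  exact ht0 t ht l X s h ⟨h1, h2, h3, h4⟩ h5 h6

end Pool.Agent.Helper73.Dn
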