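import Pool.Agent.Helper73.Dn.Goals
import Pool.Agent.Helper17.Rg.SUBQ

/-!
# SUBZ: the Subspace theorem for rationals with denominators `2 ^ a 3 ^ b`, without places
-/

set_option autoImplicit false

open NumberField Pool.Agent.Helper92.Ru Pool.Agent.Helper17.Rg

namespace Pool.Agent.Helper73.Dn

theorem exists_form' {N : ℕ} (W : Submodule ℚ (Fin N → ℚ)) (hW : W ≠ ⊤) :
    ∃ u : Fin N → ℚ, u ≠ 0 ∧ ∀ x ∈ W, ∑ i, u i * x i = 0 := by
  obtain ⟨f, hf, hfW⟩ := Submodule.exists_le_ker_of_lt_top W (lt_top_iff_ne_top.2 hW)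
  have key : ∀ x, f x = ∑ i : Fin N, f (Pi.single i 1) * x i := by
    intro x
    have h : x = ∑ i, x i • (Pi.single i (1:ℚ) : Fin N → ℚ) := by
      funext j
      simp [Finset.sum_apply, Pi.single_apply]
    conv_lhs => rw [h]
    rw [map_sum]
    simp only [map_smul, smul_eq_mul, mul_comm]
  refine ⟨fun i => f (Pi.single i 1), ?_, ?_⟩
  · intro h0
    apply hf
    refine LinearMap.ext fun x => ?_
    rw [key x]
    simp only [LinearMap.zero_apply]
    refine Finset.sum_eq_zero fun i _ => ?_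
    have := congrFun h0 i
    simp only [Pi.zero_apply] at this
    rw [this, zero_mul]
  · intro x hx
    have h3 := hfW hx
    rw [LinearMap.mem_ker, key x] at h3
    exact h3

theorem w_cop (w : FinitePlace ℚ) : (w (2:ℚ) < 1 ∧ w (3:ℚ) = 1) ∨ (w (2:ℚ) = 1 ∧ w (3:ℚ) ≤ 1) := by
  have i2 : w (2:ℚ) ≤ 1 := by simpa using w_int_le w 2
  have i3 : w (3:ℚ) ≤ 1 := by simpa using w_int_le w 3
  rcases i2.lt_or_eq with h2 | h2
  · left
    refine ⟨h2, ?_⟩
    rcases i3.lt_or_eq with h3 | h3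
    · exfalso
      have h := FinitePlace.add_le w (3:ℚ) (-2)
      rw [show (3:ℚ) + -2 = 1 by norm_num, map_one, map_neg_eq_map] at h
      exact absurd (h.trans_lt (max_lt h3 h2)) (lt_irrefl _)
    · exact h3
  · exact Or.inr ⟨h2, i3⟩

theorem subZ (hS : SubY) : SubZ := by
  classical
  intro N hN A0 A2 A3 hA0 hA2 hA3 D hD B δ hδ
  obtain ⟨T, hT⟩ := exists_T
  let A : SP ℚ T → Matrix (Fin N) (Fin N) ℚ := fun v =>
    match v with
    | Sum.inl _ => A0
    | Sum.inr w => if w.1 (2:ℚ) < 1 then A2 else A3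
  have hA : ∀ v, (A v).det ≠ 0 := by
    intro v
    rcases v with v | w
    · exact hA0
    · show (if w.1 (2:ℚ) < 1 then A2 else A3).det ≠ 0
      split_ifs
      · exact hA2
      · exact hA3
  have hl2 : 0 < Real.log 2 := Real.log_pos (by norm_num)
  have hDq : ((D : ℕ) : ℚ) ≠ 0 := by exact_mod_cast hD.ne'
  let K : ℝ := ∑ w : {w : FinitePlace ℚ // w ∈ T}, |Real.log (w.1 (D : ℚ))|
  have hK0 : 0 ≤ K := Finset.sum_nonneg fun w _ => abs_nonneg _
  let KK : ℝ := ∑ w : {w : FinitePlace ℚ // w ∈ T},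
    (|Real.log (w.1 (2 : ℚ))| + |Real.log (w.1 (3 : ℚ))|)
  have hKK0 : 0 ≤ KK := Finset.sum_nonneg fun w _ => by positivity
  let B' : ℝ := |B| * (1 + KK) + K
  obtain ⟨Q0, F, hQ0, hF, hmain⟩ := hS ℚ T N hN A hA B' (δ / 2) (by positivity)
  choose! u hu using fun (W : Submodule ℚ (Fin N → ℚ)) (hW : W ≠ ⊤) => exists_form' W hW
  refine ⟨max (max 1 (Real.log Q0)) (2 * (N * K) / δ), F.image u, ?_, ?_⟩
  · intro w hw
    obtain ⟨W, hW, rfl⟩ := Finset.mem_image.1 hw
    exact (hu W (hF W hW)).1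
  intro t ht x hx α β γ hb h0 h2 h3 hsum
  have ht1 : 1 ≤ t := ((le_max_left _ _).trans (le_max_left _ _)).trans ht
  have ht2 : Real.log Q0 ≤ t := ((le_max_right _ _).trans (le_max_left _ _)).trans ht
  have ht3 : 2 * (N * K) / δ ≤ t := (le_max_right _ _).trans ht
  have htpos : 0 < t := by linarith
  let y : SP ℚ T → Fin N → ℝ := fun v i => match v with
    | Sum.inl _ => α i / t
    | Sum.inr w => (β i * Real.log (w.1 (2:ℚ)) + γ i * Real.log (w.1 (3:ℚ)) -
        Real.log (w.1 (D:ℚ))) / t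
  have hQ : Q0 ≤ Real.exp t := (Real.log_le_iff_le_exp (by linarith)).1 ht2
  have hxS : SIntV T x := by
    intro i w hw
    obtain ⟨e, k, hk⟩ := hx i
    have h6 : w (6:ℚ) = 1 := by
      rw [show (6:ℚ) = 2 * 3 by norm_num, map_mul, (hT w hw).1, (hT w hw).2, one_mul]
    have h := congrArg w hk
    rw [map_mul, map_pow, h6, one_pow, mul_one] at h
    rw [h]
    exact w_int_le w k
  have hBt : B * t ≤ |B| * t := mul_le_mul_of_nonneg_right (le_abs_self B) htpos.le
  have hyB : ∀ v i, |y v i| ≤ B' := by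
    intro v i
    rcases v with v | w
    · show |α i / t| ≤ B'
      rw [abs_div, abs_of_pos htpos, div_le_iff₀ htpos]
      refine ((hb i).1.trans hBt).trans ?_
      refine mul_le_mul_of_nonneg_right ?_ htpos.le
      show |B| ≤ |B| * (1 + KK) + K
      nlinarith [abs_nonneg B]
    · show |(β i * Real.log (w.1 (2:ℚ)) + γ i * Real.log (w.1 (3:ℚ)) -
        Real.log (w.1 (D:ℚ))) / t| ≤ B'
      rw [abs_div, abs_of_pos htpos, div_le_iff₀ htpos]
      have e1 : |(β i * Real.log (w.1 (2:ℚ)) + γ i * Real.log (w.1 (3:ℚ)) -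
          Real.log (w.1 (D:ℚ)))| ≤ |(β i : ℝ)| * |Real.log (w.1 (2:ℚ))| +
          |(γ i : ℝ)| * |Real.log (w.1 (3:ℚ))| + |Real.log (w.1 (D:ℚ))| := by
        refine (abs_sub _ _).trans ?_
        refine add_le_add ((abs_add_le _ _).trans ?_) le_rfl
        rw [abs_mul, abs_mul]
      have e2 : |(β i : ℝ)| * |Real.log (w.1 (2:ℚ))| ≤ |B| * t * |Real.log (w.1 (2:ℚ))| :=
        mul_le_mul_of_nonneg_right ((hb i).2.1.trans hBt) (abs_nonneg _)
      have e3 : |(γ i : ℝ)| * |Real.log (w.1 (3:ℚ))| ≤ |B| * t * |Real.log (w.1 (3:ℚ))| :=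
        mul_le_mul_of_nonneg_right ((hb i).2.2.trans hBt) (abs_nonneg _)
      have e4 : |Real.log (w.1 (2:ℚ))| + |Real.log (w.1 (3:ℚ))| ≤ KK :=
        Finset.single_le_sum (f := fun w : {w : FinitePlace ℚ // w ∈ T} =>
          |Real.log (w.1 (2 : ℚ))| + |Real.log (w.1 (3 : ℚ))|)
          (fun v _ => by positivity) (Finset.mem_univ w)
      have e5 : |Real.log (w.1 (D:ℚ))| ≤ K :=
        Finset.single_le_sum (f := fun w : {w : FinitePlace ℚ // w ∈ T} =>
          |Real.log (w.1 (D : ℚ))|) (fun v _ => abs_nonneg _) (Finset.mem_univ w)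
      have e6 : |B| * t * (|Real.log (w.1 (2:ℚ))| + |Real.log (w.1 (3:ℚ))|) ≤ |B| * t * KK :=
        mul_le_mul_of_nonneg_left e4 (by positivity)
      have e7 : K ≤ K * t := by nlinarith
      have e8 : (|B| * (1 + KK) + K) * t = |B| * t + |B| * t * KK + K * t := by ring
      show _ ≤ (|B| * (1 + KK) + K) * t
      rw [e8]
      have e9 : 0 ≤ |B| * t := by positivity
      rw [mul_add] at e6
      linarith
  have hQy : ∀ s : ℝ, (Real.exp t) ^ s = Real.exp (t * s) := by
    intro s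
    rw [Real.rpow_def_of_pos (Real.exp_pos t), Real.log_exp]
  have hbox : ∀ v i, nS v ((A v).mulVec x i) ≤ (Real.exp t) ^ y v i := by
    intro v i
    rw [hQy]
    rcases v with v | w
    · show nS (Sum.inl v) (A0.mulVec x i) ≤ Real.exp (t * (α i / t))
      rw [mul_div_cancel₀ _ htpos.ne', nS_inl]
      have hm : v.mult = 1 := by
        have : v.IsReal := by
          have h1 : v = Rat.infinitePlace := Subsingleton.elim _ _
          rw [h1]
          exact Rat.isReal_infinitePlace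
        exact InfinitePlace.mult_isReal ⟨v, this⟩
      rw [hm, pow_one, Rat.infinitePlace_apply]
      refine le_trans (le_of_eq ?_) (h0 i)
      push_cast
      rfl
    · show nS (Sum.inr w) ((if w.1 (2:ℚ) < 1 then A2 else A3).mulVec x i) ≤
        Real.exp (t * ((β i * Real.log (w.1 (2:ℚ)) + γ i * Real.log (w.1 (3:ℚ)) -
          Real.log (w.1 (D:ℚ))) / t))
      rw [mul_div_cancel₀ _ htpos.ne', nS_inr]
      have p2 : 0 < w.1 (2:ℚ) := FinitePlace.pos_iff.2 (by norm_num)
      have p3 : 0 < w.1 (3:ℚ) := FinitePlace.pos_iff.2 (by norm_num)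
      have pD : 0 < w.1 (D:ℚ) := FinitePlace.pos_iff.2 hDq
      rcases w_cop w.1 with ⟨c2, c3⟩ | ⟨c2, c3⟩
      · rw [if_pos c2, c3, Real.log_one, mul_zero, add_zero, Real.exp_sub, Real.exp_log pD,
          le_div_iff₀ pD]
        obtain ⟨e, k, hk⟩ := h2 i
        have h := congrArg w.1 hk
        rw [map_mul, map_mul, map_pow, c3, one_pow, mul_one, map_mul, map_zpow₀] at h
        rw [h]
        have h5 : Real.exp (β i * Real.log (w.1 (2:ℚ))) = w.1 (2:ℚ) ^ β i := by
          rw [mul_comm, ← Real.rpow_def_of_pos p2, Real.rpow_intCast]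
        rw [h5]
        exact mul_le_of_le_one_right (zpow_nonneg p2.le _) (w_int_le w.1 k)
      · rw [if_neg (by rw [c2]; exact lt_irrefl _), c2, Real.log_one, mul_zero, zero_add,
          Real.exp_sub, Real.exp_log pD, le_div_iff₀ pD]
        obtain ⟨e, k, hk⟩ := h3 i
        have h := congrArg w.1 hk
        rw [map_mul, map_mul, map_pow, c2, one_pow, mul_one, map_mul, map_zpow₀] at h
        rw [h]
        have h5 : Real.exp (γ i * Real.log (w.1 (3:ℚ))) = w.1 (3:ℚ) ^ γ i := by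
          rw [mul_comm, ← Real.rpow_def_of_pos p3, Real.rpow_intCast]
        rw [h5]
        exact mul_le_of_le_one_right (zpow_nonneg p3.le _) (w_int_le w.1 k)
  have hprod : ∀ z : ℚ, (∃ a b : ℤ, z = 2 ^ a * 3 ^ b) →
      ∑ w : {w : FinitePlace ℚ // w ∈ T}, Real.log (w.1 z) = -Real.log |(z : ℝ)| := by
    rintro z ⟨a, b, rfl⟩
    have h := unit_logsum (T := T) hT a b
    rw [Fintype.sum_sum_type] at h
    have h1 : ∑ v : InfinitePlace ℚ, Real.log (nS (T := T) (Sum.inl v) ((2:ℚ) ^ a * 3 ^ b)) =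
        Real.log |(((2:ℚ) ^ a * 3 ^ b : ℚ) : ℝ)| := by
      have e1 : ∀ v : InfinitePlace ℚ, Real.log (nS (T := T) (Sum.inl v) ((2:ℚ) ^ a * 3 ^ b)) =
          Real.log |(((2:ℚ) ^ a * 3 ^ b : ℚ) : ℝ)| := by
        intro v
        have h1 : v = Rat.infinitePlace := Subsingleton.elim _ _
        have hm : v.mult = 1 := by
          have : v.IsReal := by
            rw [h1]
            exact Rat.isReal_infinitePlace
          exact InfinitePlace.mult_isReal ⟨v, this⟩
        rw [nS_inl, hm, pow_one, Rat.infinitePlace_apply]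
        push_cast
        rfl
      rw [Finset.sum_congr rfl fun v _ => e1 v]
      simp
    rw [h1] at h
    have h2 : ∑ w : {w : FinitePlace ℚ // w ∈ T}, Real.log (w.1 ((2:ℚ) ^ a * 3 ^ b)) =
        ∑ w : {w : FinitePlace ℚ // w ∈ T}, Real.log (nS (Sum.inr w) ((2:ℚ) ^ a * 3 ^ b)) := rfl
    rw [h2]
    linarith
  have hs2 := hprod 2 ⟨1, 0, by norm_num⟩
  have hs3 := hprod 3 ⟨0, 1, by norm_num⟩
  have hs2' : ∑ w : {w : FinitePlace ℚ // w ∈ T}, Real.log (w.1 (2:ℚ)) = -Real.log 2 := by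
    rw [hs2]; norm_num
  have hs3' : ∑ w : {w : FinitePlace ℚ // w ∈ T}, Real.log (w.1 (3:ℚ)) = -Real.log 3 := by
    rw [hs3]; norm_num
  have hsum' : ∑ v, ∑ i, y v i ≤ -(δ / 2) := by
    rw [Finset.sum_comm]
    have e1 : ∀ i, ∑ v, y v i = (α i - β i * Real.log 2 - γ i * Real.log 3 -
        ∑ w : {w : FinitePlace ℚ // w ∈ T}, Real.log (w.1 (D:ℚ))) / t := by
      intro i
      rw [Fintype.sum_sum_type]
      have e2 : ∑ v : InfinitePlace ℚ, y (Sum.inl v) i = α i / t := by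
        show ∑ v : InfinitePlace ℚ, α i / t = α i / t
        simp
      have e3 : ∑ w : {w : FinitePlace ℚ // w ∈ T}, y (Sum.inr w) i =
          (- β i * Real.log 2 - γ i * Real.log 3 -
            ∑ w : {w : FinitePlace ℚ // w ∈ T}, Real.log (w.1 (D:ℚ))) / t := by
        show ∑ w : {w : FinitePlace ℚ // w ∈ T}, (β i * Real.log (w.1 (2:ℚ)) +
          γ i * Real.log (w.1 (3:ℚ)) - Real.log (w.1 (D:ℚ))) / t = _
        rw [← Finset.sum_div, Finset.sum_sub_distrib, Finset.sum_add_distrib, ← Finset.mul_sum,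
          ← Finset.mul_sum, hs2', hs3']
        ring
      rw [e2, e3]
      ring
    rw [Finset.sum_congr rfl fun i _ => e1 i, ← Finset.sum_div, Finset.sum_sub_distrib,
      div_le_iff₀ htpos]
    have e4 : -(∑ i : Fin N, ∑ w : {w : FinitePlace ℚ // w ∈ T}, Real.log (w.1 (D:ℚ))) ≤ N * K := by
      rw [Finset.sum_const, Finset.card_univ, Fintype.card_fin, nsmul_eq_mul, ← mul_neg,
        ← Finset.sum_neg_distrib]
      refine mul_le_mul_of_nonneg_left ?_ (Nat.cast_nonneg N)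
      exact Finset.sum_le_sum fun w _ => neg_le_abs _
    have e5 : 2 * (N * K) ≤ t * δ := (div_le_iff₀ hδ).1 ht3
    linarith
  obtain ⟨W, hWF, hxW⟩ := hmain (Real.exp t) hQ x hxS y hyB hbox hsum'
  exact ⟨u W, Finset.mem_image_of_mem u hWF, (hu W (hF W hWF)).2 x hxW⟩

end Pool.Agent.Helper73.Dn
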