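import Pool.Agent.Helper17.Rg.Final
import Pool.Agent.Helper73.Dn.SUBZ
import Pool.Agent.Helper73.Dn.BST
import Pool.Agent.Helper73.Dn.LIM
import Pool.Agent.Helper15.Dn.MEAS
import Pool.Agent.Helper7.Dn.DIGW
import Pool.Agent.Helper71.Dn.INFU
import Pool.Agent.Helper76.Dn.PARS
import Pool.Agent.Helper4.Dn.KER
import Pool.Agent.Helper19.Dn.THR
import Pool.Agent.Helper48.Dn.SUMC
import Pool.Agent.Helper84.Dn.DUALA
import Pool.Agent.Helper39.Dn.PT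
import Pool.Agent.Helper64.Dn.MINE
import Pool.Agent.Helper88.Dn.BLK
import Pool.Agent.Helper73.Dn.GAPH
import Pool.Agent.Helper73.Dn.RELZ
import Pool.Agent.Helper73.Dn.DUAL
import Pool.Agent.Helper73.Dn.KRON
import Pool.Agent.Helper73.Dn.LOW

/-!
# Density law for `2 ^ k + 3 ^ k` (MP_70814c_an): assembly
-/

set_option autoImplicit false

open MeasureTheory Filter Topology Pool.Agent.Helper66.Rig

namespace Pool.Agent.Helper73.Dn

theorem subZ' : SubZ := subZ (Pool.Agent.Helper31.Rg.subY Pool.Agent.Helper17.Rg.sst)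

theorem meas' : Meas :=
  Pool.Agent.Helper15.Dn.meas (Pool.Agent.Helper48.Dn.sumC
    (Pool.Agent.Helper39.Dn.pt (relZ subZ') Pool.Agent.Helper19.Dn.thr Pool.Agent.Helper7.Dn.digW
      Pool.Agent.Helper69.Rg.zInt))

theorem low' : Low :=
  low (bst (kron Pool.Agent.Helper76.Dn.pars Pool.Agent.Helper4.Dn.ker)
    (Pool.Agent.Helper84.Dn.dualA (dual subZ')) Pool.Agent.Helper64.Dn.minE gapH)
    Pool.Agent.Helper88.Dn.blk

open Classical in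
theorem law (S : Set ℕ)
    (hS : ∃ J : ℕ, ∀ N : ℕ, ((Finset.Icc N (2 * N)).filter (fun k => k ∈ S ∧ k + 1 ∉ S)).card ≤ J) :
    (1 < limsup (fun n : ℕ => (cnt S n : ℝ) / n +
        (cnt S ⌊n * Real.log 3 / Real.log 2⌋₊ : ℝ) / (n * Real.log 3 / Real.log 2)) atTop →
      ∀ σ : Measure ℂ, IsProbabilityMeasure σ → (∀ᵐ z ∂σ, ‖z‖ = 1) → fc σ 1 ≠ 1 →
        ∀ C : ℝ, ∃ N : ℕ, C < ∑ k ∈ (Finset.Icc N (2 * N)).filter (fun k => k ∈ S),
          (1 - (fc σ (2 ^ k + 3 ^ k)).re)) ∧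
    (limsup (fun n : ℕ => (cnt S n : ℝ) / n +
        (cnt S ⌊n * Real.log 3 / Real.log 2⌋₊ : ℝ) / (n * Real.log 3 / Real.log 2)) atTop < 1 →
      ∃ σ : Measure ℂ, ContProb σ ∧ ∃ C c : ℝ, 0 < c ∧ ∀ k ∈ S,
        ‖1 - fc σ (2 ^ k + 3 ^ k)‖ ≤ C * Real.exp (-c * k)) := by
  have hT : Tame S := hS
  refine ⟨fun h => ?_, fun h => ?_⟩
  · obtain ⟨δ, hδ, hn⟩ := up_of_limsup (S := S) h
    exact Pool.Agent.Helper71.Dn.infU meas' S hT δ hδ hn
  · obtain ⟨δ, n0, hδ, hn⟩ := lo_of_limsup (S := S) h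
    exact low' S hT δ n0 hδ hn

end Pool.Agent.Helper73.Dn
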