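import Pool.Agent.Helper17.Rg.Goals

/-!
# Density law for `2 ^ k + 3 ^ k` (MP_70814c_an): definitions and goals

Let `n_k = 2 ^ k + 3 ^ k`, `θ = log 3 / log 2`, `S` a set of indices with a bounded number of
components in every `[N, 2 N]` and `D (n) = |S ∩ [0, n)| / n`.
* (upper) if `limsup (D n + D (θ n)) > 1` then for EVERY measure `σ ≠ δ_1` the sums
  `∑_{k ∈ S ∩ [N, 2 N]} (1 - Re σ^(n_k))` are unbounded (uniform finite form: `Meas`).
* (lower) if `limsup (D n + D (θ n)) < 1` then for a suitable continuous `σ`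
  `|1 - σ^(n_k)| ≤ C exp (- c k)` for all `k ∈ S`.
Upper part: goals SUBZ, RELZ, THR, DIGW, PT, SUMC, MEAS, INFU. Lower part: SUBZ, DUAL, DUALA,
PARS, KER, KRON, MINE, GAPH, BST, BLK, LOW. All goals are independent (each may assume the earlier
ones, as indicated in its docstring). `t` is the real size parameter (all logarithms of heights are
`O (t)`).
-/

set_option autoImplicit false

open Pool.Agent.Helper17.Rg

namespace Pool.Agent.Helper73.Dn

/-- the right ends of the components of a finite set of integers -/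
def ends (S : Finset ℕ) : Finset ℕ := S.filter (fun k => k + 1 ∉ S)

open Classical in
/-- `S` has a bounded number of components in the windows `[N, 2 N]` -/
def Tame (S : Set ℕ) : Prop :=
  ∃ J : ℕ, ∀ N : ℕ, ((Finset.Icc N (2 * N)).filter (fun k => k ∈ S ∧ k + 1 ∉ S)).card ≤ J

/-- `log 2 · |S ∩ [0, θ n)| + log 3 · |S ∩ [0, n)|`, to be compared with `n log 3` -/
noncomputable def budget (S : Set ℕ) (n : ℕ) : ℝ :=
  Real.log 2 * (Pool.Agent.Helper66.Rig.cnt S ⌊n * Real.log 3 / Real.log 2⌋₊ : ℝ) +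
    Real.log 3 * (Pool.Agent.Helper66.Rig.cnt S n : ℝ)

/-- logarithm of the base (`0` for no base) -/
noncomputable def lg : Option Bool → ℝ
  | none => 0
  | some b => Real.log (gb b)

/-! ## Arithmetic: two consequences of the Subspace theorem -/

/-- SUBZ: the Subspace theorem for rational numbers with denominators `2 ^ a 3 ^ b`, without places.
Goal: `theorem subZ (h : Pool.Agent.Helper17.Rg.SubY) : SubZ`.
Proof. Compare the proof of `subQ` in `Pool/Agent/Helper17/Rg/SUBQ.lean` (same method; reuse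
`w_int_le`, `unit_logsum`, `unit_log`, `nS_..`). Let `T` be the finite set of the finite places `w`
of `ℚ` with `w 6 ≠ 1` (`FinitePlace.hasFiniteMulSupport`). As in `exists_T`: `w 2 = w 3 = 1` for
`w ∉ T`. For every `w`: `w 2 < 1` and `w 3 < 1` cannot both hold (`1 = w (3 - 2) ≤ max (w 3) (w 2)`,
`w` is nonarchimedean), so for `w ∈ T` exactly one of `w 2 < 1`, `w 3 < 1` holds and the other value
is `1`. Apply `SubY` with `k = ℚ`, `A (Sum.inl _) := A0`, `A (Sum.inr w) := if w 2 < 1 then A2 else A3`,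
`Q := exp t`, `δ / 2`, the exponents `y (Sum.inl _) i := α i / t`,
`y (Sum.inr w) i := (β i * log (w 2) - log (w D)) / t` if `w 2 < 1`, and
`(γ i * log (w 3) - log (w D)) / t` if `w 3 < 1`. Box condition at `w` with `w 2 < 1`: from
`A2 x i * D * 3 ^ e = 2 ^ β i * k`: `w (A2 x i) * w D = w 2 ^ β i * w k ≤ w 2 ^ β i`, so
`w (A2 x i) ≤ exp (β i log (w 2) - log (w D)) = Q ^ y`. `x i * 6 ^ e = k` gives `SInt`. Sum of the
exponents: the product formula for `2` is `log 2 + ∑_{w ∈ T, w 2 < 1} log (w 2) = 0` (`unit_logsum`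
with `a = 1, b = 0`), same for `3`, so the sum is
`(∑ (α i - β i log 2 - γ i log 3) + C0) / t ≤ - δ + C0 / t ≤ - δ / 2` for `t ≥ 2 C0 / δ`, `t ≥ 1`, where
`C0 := N * ∑_{w ∈ T} |log (w D)|`. The bound for the exponents: `|y| ≤ B' :=
|B| (1 + ∑_{w ∈ T} (|log (w 2)| + |log (w 3)|)) + C0` (`t ≥ 1`). For every subspace `W` of the finite
set choose a nonzero linear form vanishing on it (`Submodule.exists_le_ker_of_lt_top`; compare
`exists_form` in SUBQ.lean). -/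
def SubZ : Prop :=
  ∀ (N : ℕ), 1 ≤ N → ∀ (A0 A2 A3 : Matrix (Fin N) (Fin N) ℚ),
    A0.det ≠ 0 → A2.det ≠ 0 → A3.det ≠ 0 → ∀ (D : ℕ), 0 < D → ∀ B δ : ℝ, 0 < δ →
    ∃ (t0 : ℝ) (F : Finset (Fin N → ℚ)), (∀ u ∈ F, u ≠ 0) ∧
      ∀ t : ℝ, t0 ≤ t → ∀ x : Fin N → ℚ, (∀ i, ∃ (e : ℕ) (k : ℤ), x i * 6 ^ e = k) →
      ∀ (α : Fin N → ℝ) (β γ : Fin N → ℤ),
        (∀ i, |α i| ≤ B * t ∧ |(β i : ℝ)| ≤ B * t ∧ |(γ i : ℝ)| ≤ B * t) →
        (∀ i, |((A0.mulVec x i : ℚ) : ℝ)| ≤ Real.exp (α i)) →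
        (∀ i, ∃ (e : ℕ) (k : ℤ), A2.mulVec x i * D * 3 ^ e = 2 ^ β i * k) →
        (∀ i, ∃ (e : ℕ) (k : ℤ), A3.mulVec x i * D * 2 ^ e = 3 ^ γ i * k) →
        ∑ i, (α i - β i * Real.log 2 - γ i * Real.log 3) ≤ -δ * t →
        ∃ u ∈ F, ∑ i, u i * x i = 0

/-- RELZ: a linear form in rational numbers `X c` (denominator `gb (g c) ^ l c`, size `exp (- s c)`)
which is too small must vanish.
Goal: `theorem relZ (h : SubZ) : RelZ`.
Proof. Induction on `R`, for all `g, lam` (`B, δ` fixed). `R = 0`: the sum is `0`. Step `R + 1`: if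
`lam c1 = 0` for some `c1`, apply the induction hypothesis to `g ∘ c1.succAbove`, etc. (finitely many
`c1`: take the maximum of the `t0`; the sets `I` are mapped by `c1.succAbove`). If all `lam c ≠ 0`:
for every `c0 : Fin (R + 1)` apply `SubZ` with `N = R + 1`, `A2 = A3 = 1`, `D = 1`,
`A0 :=` the identity with the row `c0` replaced by `lam` (`Matrix.updateRow 1 c0 lam`, determinant
`lam c0`), `δ`, `|B| + 1`; this gives `t0` and `F` (finitely many `c0`). Given the data let `c0` be the index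
with the smallest `s c0` (`Finset.exists_min_image`). Put `x := X`, `α c := - s c` for `c ≠ c0`,
`α c0 := - h`, `β c := - l c` if `g c = false`, else `0`; `γ c := - l c` if `g c = true`, else `0`
(`X c * 2 ^ l c = k` is `X c = 2 ^ (- l c) * k`; if `g c = true`, `X c * 3 ^ l c = k` is the condition
for `2` with `β c = 0`, `e = l c`). The sum of the exponents is
`∑ (l c log (gb (g c)) - s c) + s c0 - h ≤ - δ t` by the hypothesis for `I = univ`. So there is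
`u ∈ F`, `u ≠ 0`, with `∑ u c X c = 0`; choose (from `u` only) `c1` with `u c1 ≠ 0` and put
`lam' c := lam c - lam c1 / u c1 * u c`, so `lam' c1 = 0` and `∑ lam' c X c = ∑ lam c X c`. Apply the
induction hypothesis to `lam' ∘ c1.succAbove`, `g ∘ c1.succAbove` (the hypothesis on the sets `I` holds because
all `lam c ≠ 0`); it gives `∑ lam' c X c = 0`. Useful: `Fin.sum_univ_succAbove`. -/
def RelZ : Prop :=
  ∀ (R : ℕ) (g : Fin R → Bool) (lam : Fin R → ℚ) (B δ : ℝ), 0 < δ →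
    ∃ t0 : ℝ, ∀ t : ℝ, t0 ≤ t → ∀ (l : Fin R → ℕ) (X : Fin R → ℚ) (s : Fin R → ℝ) (h : ℝ),
      (∀ c, (l c : ℝ) ≤ B * t ∧ |s c| ≤ B * t) → |h| ≤ B * t →
      (∀ c, ∃ k : ℤ, X c * (gb (g c) : ℚ) ^ l c = k) →
      (∀ c, |(X c : ℝ)| ≤ Real.exp (-s c)) →
      |((∑ c, lam c * X c : ℚ) : ℝ)| ≤ Real.exp (-h) →
      (∀ I : Finset (Fin R), ∀ c0 ∈ I, (∀ c ∈ I, lam c ≠ 0 ∧ s c0 ≤ s c) →
        ∑ c ∈ I, (l c * Real.log (gb (g c)) - s c) + s c0 - h ≤ -δ * t) →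
      ∑ c, lam c * X c = 0

/-- DUAL: an exact relation among integers `U c` divisible by `gb (g c) ^ l c`, of size `exp (q c)`,
has a vanishing term.
Goal: `theorem dual (h : SubZ) : Dual`.
Proof. Induction on `R`, for all `g, lam ≠ 0` (`B, δ` fixed). `R = 0` is impossible. `R = 1`:
`lam 0 ≠ 0` so `U 0 = 0`. Step from `R ≥ 1` to `R + 1`: if `lam c = 0` for some `c`, apply the induction
hypothesis to `lam ∘ c.succAbove ≠ 0` etc. If all `lam c ≠ 0`: let `c0` be the index with the largest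
`q c0`, `I := univ.erase c0` (nonempty), `c1 ∈ I` given by the hypothesis (finitely many pairs
`(c0, c1)`: treat all of them in advance and take maxima and unions). Apply `SubZ` in dimension `R` to
`x j := U (c0.succAbove j)`, with `A0 = 1`, `α := q`; `j1` is the index with
`c0.succAbove j1 = c1`, `D :=` the denominator of `lam c0`. If `g c0 = none` take `A2 = A3 = 1`. If
`g c0 = some false` take `A3 = 1` and `A2 :=` the identity with the row `j1` replaced by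
`lam ∘ c0.succAbove` (determinant `lam c1`); the value of this form is `- lam c0 * U c0`, and times `D` it
is an integer multiple of `2 ^ l c0`. If `g c0 = some true` the same with `A3`. Exponents:
`β j := l c` if `g c = some false`, else `0`, `γ j := l c` if `g c = some true`, else `0`
(`c = c0.succAbove j`), except that `β j1 := l c0` if `g c0 = some false` and `γ j1 := l c0` if
`g c0 = some true`. Then the sum of the exponents is at most
`∑_{c ∈ I} (q c - l c lg (g c)) + (if g c1 = g c0 then l c1 lg (g c1) else 0) - l c0 lg (g c0) ≤ - δ t`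
(equality, check the cases). So there is `u ≠ 0` in a finite set with `∑ u j U (c0.succAbove j) = 0`,
and the induction hypothesis for `u` gives `j` with `u j ≠ 0` and `U (c0.succAbove j) = 0`;
`lam (c0.succAbove j) ≠ 0` because all `lam c ≠ 0`. (For `x = 0` everything is fine too.) -/
def Dual : Prop :=
  ∀ (R : ℕ) (g : Fin R → Option Bool) (lam : Fin R → ℚ) (B δ : ℝ), lam ≠ 0 → 0 < δ →
    ∃ t0 : ℝ, ∀ t : ℝ, t0 ≤ t → ∀ (l : Fin R → ℕ) (U : Fin R → ℤ) (q : Fin R → ℝ),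
      (∀ c, (l c : ℝ) ≤ B * t ∧ |q c| ≤ B * t) →
      (∀ c b, g c = some b → (gb b : ℤ) ^ l c ∣ U c) →
      (∀ c, |(U c : ℝ)| ≤ Real.exp (q c)) →
      ∑ c, lam c * (U c : ℚ) = 0 →
      (∀ (I : Finset (Fin R)) (c0 : Fin R), c0 ∉ I → I.Nonempty → (∀ c ∈ I, q c ≤ q c0) →
        ∃ c1 ∈ I, ∑ c ∈ I, (q c - l c * lg (g c)) +
          (if g c1 = g c0 then l c1 * lg (g c1) else 0) - l c0 * lg (g c0) ≤ -δ * t) →
      ∃ c, lam c ≠ 0 ∧ U c = 0

/-- DUALA: the same for a variable subset `A` of a finite index set: all terms vanish.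
Goal: `theorem dualA (h : Dual) : DualA`.
Proof. For every `A : Finset ι` (finitely many) choose a bijection `e : Fin A.card ≃ A`
(`A.equivFin`), apply `Dual` to `g ∘ e`, `lam = 1` if `A` is nonempty, and let `t0` be the
maximum. Then strong induction on `A.card`: if `A = ∅` nothing to show; otherwise `Dual` gives
`c ∈ A` with `U c = 0`, so `∑_{A.erase c} U = 0` and the induction hypothesis applies to
`A.erase c` (all hypotheses are inherited by subsets). -/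
def DualA : Prop :=
  ∀ (ι : Type) [Fintype ι] [DecidableEq ι] (g : ι → Option Bool) (B δ : ℝ), 0 < δ →
    ∃ t0 : ℝ, ∀ t : ℝ, t0 ≤ t → ∀ (A : Finset ι) (l : ι → ℕ) (U : ι → ℤ) (q : ι → ℝ),
      (∀ c ∈ A, (l c : ℝ) ≤ B * t ∧ |q c| ≤ B * t) →
      (∀ c ∈ A, ∀ b, g c = some b → (gb b : ℤ) ^ l c ∣ U c) →
      (∀ c ∈ A, |(U c : ℝ)| ≤ Real.exp (q c)) →
      ∑ c ∈ A, U c = 0 →
      (∀ (I : Finset ι) (c0 : ι), I ⊆ A → c0 ∈ A → c0 ∉ I → I.Nonempty → (∀ c ∈ I, q c ≤ q c0) →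
        ∃ c1 ∈ I, ∑ c ∈ I, (q c - l c * lg (g c)) +
          (if g c1 = g c0 then l c1 * lg (g c1) else 0) - l c0 * lg (g c0) ≤ -δ * t) →
      ∀ c ∈ A, U c = 0

/-! ## Upper part -/

/-- THR: choice of the horizon `σ`.
Goal: `theorem thr : Thr`.
Proof. Let `η := ε / (2 (R + 1)) * t > 0` and `G (y) := ∑_{c : s c < y} (w c - s c + η) - y`. Let `Θ` be the
finite set `{h} ∪ {s c : s c ≤ h}` and `σ ∈ Θ` a minimiser of `G` on `Θ` (`Finset.exists_min_image`).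
`G σ ≤ G h ≤ ∑ (w c - s c) + R η - h ≤ - τ - ε t + R η ≤ - τ - ε / 2 t` and `G σ ≥ - σ`, so
`σ ≥ τ + ε / 2 t`. For `I, c0` as in the statement `s c0 < σ ≤ h`, so `s c0 ∈ Θ` and
`0 ≥ G σ - G (s c0) = ∑_{s c0 ≤ s c < σ} (w c - s c + η) - σ + s c0 ≥ ∑_{c ∈ I} (w c - s c) + η - σ + s c0`
(all terms are nonnegative, `I` is a subset of the index set and is nonempty). -/
def Thr : Prop :=
  ∀ (R : ℕ) (w s : Fin R → ℝ) (h τ ε t : ℝ), 0 < t → 0 < ε → (∀ c, s c ≤ w c) →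
    ∑ c, (w c - s c) + τ - h ≤ -ε * t →
    ∃ σ : ℝ, σ ≤ h ∧ τ + ε / 2 * t ≤ σ ∧
      ∀ (I : Finset (Fin R)), ∀ c0 ∈ I, (∀ c ∈ I, s c < σ ∧ s c0 ≤ s c) →
        ∑ c ∈ I, (w c - s c) + s c0 - σ ≤ -(ε / (2 * (R + 1))) * t

/-- DIGW: the expansion of `x` in base `gb b` along a set `G` of good times, written with few terms.
Goal: `theorem digW : DigW`.
Proof. Write `g := gb b ∈ {2, 3}`, `L := log g > 0`, `a k := round (g ^ k x)`. For `k ∈ G`:
`|g ^ k x - a k| < 1/8` (`di`), and if `k, k + 1 ∈ G` then `|a (k+1) - g a k| < 1/8 + 3/8 < 1`, so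
`a (k+1) = g * a k`, i.e. `a (k+1) / g ^ (k+1) = a k / g ^ k`. For `p ∈ G` let `p'` be its predecessor in
`G` (the largest element of `G` below `p`), if `p` is not the minimum `p0` of `G`. Put
`D p := a p / g ^ p - a p' / g ^ p'`, `s p := p' L` for `p ≠ p0`, `D p0 := a p0 / g ^ p0`,
`s p0 := - log |x| - log 2`. (1) `D p = 0` if `p - 1 ∈ G` (`p ≥ 1`). (2) `|D p| ≤ 2 exp (- s p)`: for
`p ≠ p0` it is at most `g ^ (-p) / 8 + g ^ (-p') / 8`; `|D p0| ≤ |x| + g ^ (-p0) / 8 ≤ 2 |x|` as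
`g ^ (-p0) ≤ 2 |x|`. (3) `s p ≤ p L`; for `p0` because `1/2 ≤ g ^ p0 |x|`. (4) Let
`σ ≤ (max G) L` and `G' := {p ∈ G : s p < σ}`. `G'` is an initial segment of `G` (`s` is nondecreasing along
`G` by (3)). If it is empty then `s p0 ≥ σ`, `|x| ≤ exp (- σ) / 2`. Otherwise let `p* := max G'`;
telescoping, `∑_{p ∈ G'} D p = a p* / g ^ p*`, and `|x - a p* / g ^ p*| < g ^ (-p*) / 8 ≤ exp (- σ) / 8`,
because either `p* = max G`, or the successor `p''` of `p*` in `G` has `p* L = s p'' ≥ σ`. (5) The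
terms with `D p = 0` by (1) can be omitted; the other `p` (starts: `p = p0`, or `p ≥ 1`,
`p - 1 ∉ G`) are as many as the elements of `ends G` (`p ↦ p'` maps the starts `≠ p0` injectively
into `ends G` minus the maximum of `G`). The sum over the starts of `p L - s p` is
`p0 L + log |x| + log 2 + ∑_{starts ≠ p0} (p - p') L`, and
`∑_{p ∈ G, p ≠ p0} (p - p') = max G - p0`, where the non-starts (at least `|G| - m` of them) contribute
`1` each; so the sum is at most `(max G - |G| + m) L + log |x| + log 2`. (6) Pass to the index set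
`Fin m` by an injection from the starts, with `l = 0, X = 0, s = 0` for the unused indices (each of
these contributes `0` everywhere; `card G ≥ number of starts`). It may be easier to index by
`ends G` instead of the starts, and to use `Finset.orderEmbOfFin` or induction on `G` (remove the
maximum) for (4) and (5). -/
def DigW : Prop :=
  ∀ (b : Bool) (m : ℕ) (x : ℝ) (G : Finset ℕ) (hG : G.Nonempty), (ends G).card ≤ m →
    |x| ≤ 1 / 2 → (∀ k ∈ G, di ((gb b : ℝ) ^ k * x) < 1 / 8) →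
    (∀ k ∈ G, 1 / 2 ≤ (gb b : ℝ) ^ k * |x|) →
    ∃ (l : Fin m → ℕ) (X : Fin m → ℚ) (s : Fin m → ℝ),
      (∀ c, l c ≤ G.max' hG) ∧ (∀ c, ∃ k : ℤ, X c * (gb b : ℚ) ^ l c = k) ∧
      (∀ c, |(X c : ℝ)| ≤ 2 * Real.exp (-s c)) ∧ (∀ c, s c ≤ l c * Real.log (gb b)) ∧
      (∀ c, 0 ≤ s c) ∧
      (∀ σ : ℝ, σ ≤ G.max' hG * Real.log (gb b) →
        |x - ∑ c, (if s c < σ then (X c : ℝ) else 0)| ≤ Real.exp (-σ) / 2) ∧
      ∑ c, (l c * Real.log (gb b) - s c) ≤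
        ((G.max' hG : ℝ) - G.card + m) * Real.log (gb b) + Real.log |x| + 1

/-- PT: the pointwise statement: many bad times in `S` unless `x` is extremely close to an integer.
Goal: `theorem pt (h1 : RelZ) (h2 : Thr) (h3 : DigW) (h4 : Pool.Agent.Helper17.Rg.ZInt) : Pt`
(`ZInt` is proved: `Pool.Agent.Helper69.Rg.zInt`).
Proof. We may assume `ε ≤ 1`. Suppose at most `m` elements of `S` are bad and `di x ≥ 1 / (4 3 ^ k1)`.
Replace `x` by `x - round x`: `|x| = di x =: exp (- τ) ≤ 1/2`. Let `T := n log 3`,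
`G := {k ∈ S : not Bad x k}`, `G3 := {k ∈ G : k ≤ n}`, `G2 := {k ∈ G : 1/2 ≤ 2 ^ k |x|}`. For
`k ∈ G3`: `3 ^ k |x| ≥ 1/4` and `di (3 ^ k x) < 1/8`, so `3 ^ k |x| ≥ 1/2` (otherwise
`di (3 ^ k x) = 3 ^ k |x| ≥ 1/4`). An element of `G \ G2` has `k log 2 < τ`, so there are at most
`τ / log 2 + 1` of them. So (*) `log 2 |G2| + log 3 |G3| ≥ (1 + ε) T - τ - K` with
`K := (m + 1) log 6`. `G3 ⊆ [(τ - 1) / log 3, n]` and `G2 ⊆ [(τ - 1) / log 2, T / log 2]`, so each of the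
two terms in (*) is at most `T - τ + 5`; hence both sets are nonempty, and `T - τ ≥ ε T / 2`, for
large `n`. `|ends G3| ≤ |ends G| ≤ J + m`, `|ends G2| ≤ J + m` (`G2` is `G` minus an initial segment,
removing one element creates at most one new end, cutting `S` at `n` does not create more than one:
use the bound `m' := J + m + 1`). `DigW` for `G2` (base `2`) and `G3` (base `3`) with `m'`, combined by
`Fin.append` (`R = 2 m'`): `l, X, s`; let `lam0 = 1` on the first half and `- 1` on the second,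
`H2 := max G2 log 2`, `H3 := max G3 log 3`, `h := min H2 H3`, `w c := l c log (gb (g c))`. Then
`∑ (w c - s c) + τ - h ≤ H2 + H3 - h - (log 2 |G2| + log 3 |G3|) + 2 m' log 3 - 2 τ + 2 + τ ≤
max H2 H3 + 2 m' log 3 + 2 + K - (1 + ε) T ≤ - ε T + K' ≤ - (ε / 2) T` for large `n` (`H2 ≤ T`,
`H3 ≤ T`). `Thr` (with `ε / 2`, `t = T`) gives `σ ≤ h`, `σ ≥ τ + ε / 4 T`. Let `lam c := lam0 c` if
`s c < σ`, else `0` (finitely many functions `lam : Fin R → ℚ` with values in `{0, 1, -1}`; take the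
maximum of the `t0` of `RelZ` over all of them, with `B := 10`, `δ := ε / (8 (R + 1))`). By `DigW`
`|∑ lam c X c| ≤ exp (- σ)`. Apply `RelZ` to `s c - 1` in place of `s c` (`2 ≤ exp 1`) and
`h := σ`: the hypothesis is the last conclusion of `Thr` up to the constant `R + 1 ≤ δ T`-small. So
`∑ lam c X c = 0`, that is `y := ∑_{first half, s c < σ} X c = ∑_{second half, s c < σ} X c`, a rational
number with `y 2 ^ a` and `y 3 ^ b` integers (`a, b` the sums of the `l c`), so `y` is an integer by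
`ZInt`, and `|x - y| ≤ exp (- σ) / 2 < exp (- τ) = |x| ≤ 1/2`: if `y = 0` this is a contradiction; if
`y ≠ 0` then `|x - y| ≥ 1/2 > exp (- σ) / 2`, also a contradiction (`σ > 0`). Bounds: `0 ≤ s c ≤ w c ≤ T`,
`l c ≤ T / log 2`, `0 < σ ≤ T`. -/
def Pt : Prop :=
  ∀ (ε : ℝ) (J m : ℕ), 0 < ε → ∃ n0 : ℕ, ∀ n : ℕ, n0 ≤ n → ∀ S : Finset ℕ, (ends S).card ≤ J →
    (∀ k ∈ S, (k : ℝ) * Real.log 2 ≤ n * Real.log 3) →
    (1 + ε) * (n * Real.log 3) ≤
      Real.log 2 * (S.card : ℝ) + Real.log 3 * ((S.filter (fun k => k ≤ n)).card : ℝ) →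
    ∀ (x : ℝ) (k1 : ℕ), (∀ k ∈ S, k1 ≤ k) → 1 / (4 * 3 ^ k1) ≤ di x →
      ∃ S' : Finset ℕ, S' ⊆ S ∧ (∀ k ∈ S', Bad x k) ∧ m < S'.card

/-- SUMC: the pointwise inequality for the sums.
Goal: `theorem sumC (h : Pt) : SumC`.
Proof. We may assume `M ≥ 1`. Let `kM` with `8 * 9 ^ kM ≥ 20 M`, `S1 := {k ∈ S : kM ≤ k}`: for large
`n` it satisfies the hypotheses of `Pt` with `ε / 2` (its budget is smaller by at most
`kM log 6`; `ends S1 ⊆ ends S`), and it is nonempty; let `k1 := min S1`. All terms are `≥ 0`, so it suffices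
to bound the sum over `S1`. CASE `di x < 1 / (4 3 ^ k1)`: the term `k1` alone: `n := 2 ^ k1 + 3 ^ k1 ≤ 2 3 ^ k1`,
`n di x ≤ 1/2`, so `di (n x) = n di x` and `1 - cos (2 π n x) ≥ 8 n ^ 2 (di x) ^ 2 ≥ 8 9 ^ kM (di x) ^ 2
≥ 20 M (di x) ^ 2 ≥ M (1 - cos (2 π x))` (compare the case `di x < 1 / 6 ^ N` in
`Pool/Agent/Helper81/Rg/SUM.lean`). CASE `di x ≥ 1 / (4 3 ^ k1)`: `Pt` for `S1` with
`m := ⌈512 M⌉ + J`: more than `m` bad `k ∈ S1`, so more than `m - J ≥ 512 M` bad `k` with `k, k + 1 ∈ S1`, and for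
such `k` the terms `k` and `k + 1` have sum `≥ 1 / 128` (see the proof of `cosBad` in
`Pool/Agent/Helper8/Rg/COS.lean`); every term is used at most twice, so the sum is at least
`512 M / 256 = 2 M ≥ M (1 - cos (2 π x))`. -/
def SumC : Prop :=
  ∀ (ε M : ℝ) (J : ℕ), 0 < ε → ∃ n0 : ℕ, ∀ n : ℕ, n0 ≤ n → ∀ S : Finset ℕ, (ends S).card ≤ J →
    (∀ k ∈ S, (k : ℝ) * Real.log 2 ≤ n * Real.log 3) →
    (1 + ε) * (n * Real.log 3) ≤
      Real.log 2 * (S.card : ℝ) + Real.log 3 * ((S.filter (fun k => k ≤ n)).card : ℝ) →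
    ∀ x : ℝ, M * (1 - Real.cos (2 * Real.pi * x)) ≤
      ∑ k ∈ S, (1 - Real.cos (2 * Real.pi * ((2 ^ k + 3 ^ k) * x)))

/-- MEAS: the same for probability measures on the unit circle.
Goal: `theorem meas (h : SumC) : Meas`. Proof: integrate `SumC`; copy `Pool/Agent/Helper59/Rg/MEAS.lean`
(only the index set `Finset.Icc N ⌊C * N⌋₊` is replaced by `S`). -/
def Meas : Prop :=
  ∀ (ε M : ℝ) (J : ℕ), 0 < ε → ∃ n0 : ℕ, ∀ n : ℕ, n0 ≤ n → ∀ S : Finset ℕ, (ends S).card ≤ J →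
    (∀ k ∈ S, (k : ℝ) * Real.log 2 ≤ n * Real.log 3) →
    (1 + ε) * (n * Real.log 3) ≤
      Real.log 2 * (S.card : ℝ) + Real.log 3 * ((S.filter (fun k => k ≤ n)).card : ℝ) →
    ∀ σ : MeasureTheory.Measure ℂ, MeasureTheory.IsProbabilityMeasure σ → (∀ᵐ z ∂σ, ‖z‖ = 1) →
      M * (1 - (Pool.Agent.Helper66.Rig.fc σ 1).re) ≤
        ∑ k ∈ S, (1 - (Pool.Agent.Helper66.Rig.fc σ (2 ^ k + 3 ^ k)).re)

open Classical in
/-- INFU: above the threshold the sums over `S ∩ [N, 2 N]` are unbounded.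
Goal: `theorem infU (h : Meas) : InfU`.
Proof. Let `Λ := 1 - Re σ^(1) > 0` (`|σ^(1)| ≤ 1`, so `Re σ^(1) = 1` would imply `σ^(1) = 1`). Suppose all
the sums are at most `C` (`C ≥ 0`). Let `J` be the number of `Tame`, let `a ∈ ℕ` with
`2 ^ (-a) log 6 ≤ (δ / 4) log 3`, and for `n` with `budget S n ≥ (1 + δ) n log 3` put
`S' := {k ∈ S : n / 2 ^ a ≤ k, k log 2 < n log 3}` (finite). It is contained in the union of the windows
`[N, 2 N]`, `N = ⌊n / 2 ^ a⌋ 2 ^ j`, `j ≤ a + 1` (the last one reaches `2 n - 2 ^ (a+2) ≥ θ n` for large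
`n`, `θ < 8/5`), so the sum over `S'` is at most `(a + 2) C` and `|ends S'| ≤ (a + 2) J + 1`. The
budget of `S'` in the sense of `Meas` is at least `(1 + δ / 2) n log 3` for large `n`. `Meas` with
`M := ((a + 2) C + 1) / Λ`, `ε := δ / 2` gives a contradiction for large `n`. -/
def InfU : Prop :=
  ∀ S : Set ℕ, Tame S → ∀ δ : ℝ, 0 < δ →
    (∀ n0 : ℕ, ∃ n : ℕ, n0 ≤ n ∧ (1 + δ) * (n * Real.log 3) ≤ budget S n) →
    ∀ σ : MeasureTheory.Measure ℂ, MeasureTheory.IsProbabilityMeasure σ → (∀ᵐ z ∂σ, ‖z‖ = 1) →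
      Pool.Agent.Helper66.Rig.fc σ 1 ≠ 1 → ∀ C : ℝ, ∃ N : ℕ,
        C < ∑ k ∈ (Finset.Icc N (2 * N)).filter (fun k => k ∈ S),
          (1 - (Pool.Agent.Helper66.Rig.fc σ (2 ^ k + 3 ^ k)).re)

/-! ## Lower part: Kronecker's theorem with exact constants -/

/-- PARS: discrete Parseval.
Goal: `theorem pars : Pars`.
Proof. Choose `q` larger than all the `|f i - f j|`. Expand the square; for `i ≠ j`,
`∑_{h < q} exp (2 π i (f i - f j) h / q) = 0` (geometric sum, ratio `≠ 1`, `q`-th power `1`). -/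
def Pars : Prop :=
  ∀ (κ : Type) [Fintype κ] (f : κ → ℤ), Function.Injective f → ∃ q : ℕ, 0 < q ∧
    ∀ A : κ → ℂ, ∑ h ∈ Finset.range q,
      ‖∑ j, A j * Complex.exp (2 * Real.pi * (f j * (h / q : ℝ) : ℝ) * Complex.I)‖ ^ 2 =
        q * ∑ j, ‖A j‖ ^ 2

/-- KER: the kernel `a j = (j + 1) (M - j)`, `0 ≤ j ≤ M`, `a j - a (j - 1) = M - 2 j`.
Goal: `theorem ker : Ker`.
Proof. `∑ (M - 2 j)^2 = M (M+1) (M+2) / 3`, `∑ ((j+1)(M-j))^2 = M (M+1) (M+2) (M^2 + 2 M + 2) / 30`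
(write `M - j` over `ℝ` with `M` a free real parameter and sum over `range (K + 1)` by induction on
`K`; then put `K = M`). -/
def Ker : Prop :=
  ∀ M : ℕ, (M : ℝ) ^ 2 * ∑ j ∈ Finset.range (M + 1), ((M : ℝ) - 2 * j) ^ 2 ≤
    10 * ∑ j ∈ Finset.range (M + 1), (((j : ℝ) + 1) * ((M : ℝ) - j)) ^ 2

/-- KRON: a sharp form of Kronecker's theorem.
Goal: `theorem kron (h1 : Pars) (h2 : Ker) : Kron`.
Proof. Let `e y := exp (2 π i y)`, let `κ := ∀ i, Fin (M i + 1)` (the box), `f j := ∑ i, j i * ξ i`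
(injective by the hypothesis: the difference of two points of the box has `|c i| ≤ M i`), `q` from
`Pars`. With `a i n := (n + 1) (M i - n)` (so `a i (M i) = 0`) and `a' i n := n (M i + 1 - n)`
(`= a i (n - 1)`, `a' i 0 = 0`) let `A j := ∏ i, a i (j i) e (- j i β i)` and
`P (z) := ∑ j, A j e (f j z)`. For fixed `i`, with `E (z) := e (ξ i z - β i)`:
`E P - P = ∑ j, B j e (f j z)`, where `B j := (a' i (j i) - a i (j i)) (∏_{i' ≠ i} a i' (j i')) *
∏ i', e (- j i' β i')` (shift `j i` by one: the terms of `P` with `j i = M i` vanish, and `a' i 0 = 0`;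
so the sum over the box is shifted without loss; write the box as a product with the coordinate `i`
separated, or use a bijection between `{j : j i < M i}` and `{j : 0 < j i}`). So by `Pars`
`∑_h |E - 1|^2 |P|^2 (h / q) = q ∑_j |B j|^2 = q (∑_n (M i - 2 n)^2) ∏_{i' ≠ i} ∑_n (a i' n)^2`
and `∑_h |P|^2 = q ∏_{i'} ∑_n (a i' n)^2 > 0` (`Finset.prod_univ_sum`, `Fintype.piFinset`; or
`Finset.sum_prod_piFinset`). By `Ker`, `∑_h (∑_i (M i)^2 |E_i - 1|^2) |P|^2 ≤ 10 card ι ∑_h |P|^2`. So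
for some `z = h / q`: `∑_i (M i)^2 |E_i - 1|^2 ≤ 10 card ι`. Since `|e y - 1| = 2 |sin (π y)| ≥ 4 di y`:
`16 (M i)^2 (di (ξ i z - β i))^2 ≤ 10 card ι ≤ 16 (card ι)^2`. -/
def Kron : Prop :=
  ∀ (ι : Type) [Fintype ι] [DecidableEq ι] [Nonempty ι] (ξ : ι → ℤ) (M : ι → ℕ) (β : ι → ℝ),
    (∀ i, 1 ≤ M i) →
    (∀ c : ι → ℤ, (∀ i, |c i| ≤ M i) → ∑ i, c i * ξ i = 0 → c = 0) →
    ∃ z : ℝ, ∀ i, M i * di (ξ i * z - β i) ≤ Fintype.card ι

/-! ## Lower part: blocks -/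

open Classical in
/-- The block `i` is `[ρ ^ i, ρ ^ (i + 1))` (for `k log 2`, resp. `k log 3`); `P b` is the set of the
quiet blocks in base `gb b`. `EE ρ P n` is the freedom left at time `ρ ^ n`. -/
noncomputable def EE (ρ : ℝ) (P : Bool → Set ℕ) (n : ℕ) : ℝ :=
  ρ ^ n - ∑ b, ∑ i ∈ (Finset.range n).filter (fun i => i ∈ P b), (ρ ^ (i + 1) - ρ ^ i)

/-- MINE: choice of a time with little freedom, followed by more freedom.
Goal: `theorem minE : MinE`.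
Proof. Choose `a` with `ρ ^ a ≥ 2 / δ`. Given `c` let `d := δ / (4 (a + c + 1))`, `N0 := n1 + a`. Given
`n ≥ N0` let `m` be a minimiser of `G (m) := EE m - d ρ ^ n m` on `[n - a, n + c]`. For `m' > m` in the
interval, `G m ≤ G m'` gives `EE m + d ρ ^ n ≤ EE m'`. `G m ≤ G (n - a)` gives
`EE m ≤ ρ ^ (n - a) + d ρ ^ n (a + c) ≤ (δ / 2 + δ / 4) ρ ^ n` (`EE k ≤ ρ ^ k`), and `EE m ≥ δ ρ ^ m`, so
`ρ ^ m < ρ ^ n` and `m < n`. If `m ∈ P b` for some `b` then `EE (m + 1) ≤ EE m` (block `m`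
contributes at least once), contradiction. -/
def MinE : Prop :=
  ∀ (ρ : ℝ) (P : Bool → Set ℕ) (δ : ℝ) (n1 : ℕ), 1 < ρ → 0 < δ →
    (∀ n, n1 ≤ n → δ * ρ ^ n ≤ EE ρ P n) →
    ∃ a : ℕ, ∀ c : ℕ, ∃ (d : ℝ) (N0 : ℕ), 0 < d ∧ ∀ n : ℕ, N0 ≤ n → ∃ m : ℕ, n ≤ m + a ∧ m < n ∧
      (∀ b, m ∉ P b) ∧ ∀ m' : ℕ, m < m' → m' ≤ n + c → EE ρ P m + d * ρ ^ n ≤ EE ρ P m'

/-- the end of the run of `P` starting at `i`, cut at `H` -/
noncomputable def re (P : Set ℕ) (H i : ℕ) : ℕ := sInf {j | i ≤ j ∧ (j ∉ P ∨ H ≤ j)}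

/-- the active indices: `none` (the variable itself) and the starts of the runs after `m` -/
def Act (P : Bool → Set ℕ) (m H : ℕ) : Option (Bool × ℕ) → Prop
  | none => True
  | some (b, i) => m < i ∧ i < H ∧ i ∈ P b ∧ i - 1 ∉ P b

/-- the first `k` with `ρ ^ i ≤ k log (gb b)` -/
noncomputable def st (ρ : ℝ) (b : Bool) (i : ℕ) : ℕ := ⌈ρ ^ i / Real.log (gb b)⌉₊

/-- logarithm of the divisor -/
noncomputable def pp (ρ : ℝ) : Option (Bool × ℕ) → ℝ
  | none => 0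
  | some (b, i) => st ρ b i * Real.log (gb b)

/-- logarithm of the size -/
noncomputable def qq (ρ : ℝ) (P : Bool → Set ℕ) (m H : ℕ) (κ : ℝ) : Option (Bool × ℕ) → ℝ
  | none => ρ ^ m + κ
  | some (b, i) => ρ ^ re (P b) H i + κ

/-- GAPH: the inequality needed in `DualA`.
Goal: `theorem gapH : GapH`.
Proof. Facts on `e := re (P b) H i` for active `(b, i)`: `i < e ≤ H`, `j ∈ P b` for `i ≤ j < e`, and
`e ∉ P b` or `e = H`. Windows of the same base are disjoint; if `(b, i) ≠ (b, i')` are active and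
`i < i'` then `re (P b) H i ≤ i' - 1` (because `i' - 1 ∉ P b`). `ρ ^ i ≤ pp (b, i) ≤ ρ ^ i + 2`. Write
`wt j := ρ ^ (j + 1) - ρ ^ j`, `E := EE ρ P`. Put `w2 := (1 - 1 / ρ) ρ ^ (- a)`, `d' := min d w2 / 2`, and
`N0` so large that the constant `K := (2 (a + c) + 2) (|κ| + 2)` satisfies `K ≤ d' ρ ^ N0`.
Let `c0 = (b0, i0)` with end `e0` (`c0 = none` is impossible: then `q c ≤ q c0` means
`re .. ≤ m`, but `re > i > m`; so `I` would be contained in `{none}`). `I` has at most `2 (a + c) + 1` elements, all windows in `I` have end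
`≤ e0`, so, by disjointness and because `I` does not contain `c0`,
(1) `∑_{c ∈ I, c ≠ none} (ρ ^ e - ρ ^ i) ≤ ∑_b ∑_{m ≤ j < e0, j ∈ P b} wt j - (ρ ^ e0 - ρ ^ i0)
= ρ ^ i0 - ρ ^ m - (E e0 - E m)`.
CASE A: `none ∈ I` or some window of `I` has base `≠ b0`: take it as `c1` (`none` if possible). The
left side of the goal is at most
`ρ ^ m + (ρ ^ i0 - ρ ^ m - (E e0 - E m)) - ρ ^ i0 + K ≤ - d ρ ^ n + K`. CASE B: all elements of `I` are windows
of base `b0`; take `c1 = (b0, i1)` with the smallest `i1`. They end before `i0 - 1`, so the sum of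
the `ρ ^ e - ρ ^ i` is at most `ρ ^ (i0 - 1) - ρ ^ i1` and the left side is at most
`ρ ^ (i0 - 1) - ρ ^ i1 + ρ ^ i1 + 2 - ρ ^ i0 + K' ≤ - (1 - 1 / ρ) ρ ^ i0 + K ≤ - w2 ρ ^ n + K` (`i0 > m ≥ n - a`). -/
def GapH : Prop :=
  ∀ (ρ : ℝ) (P : Bool → Set ℕ) (a c : ℕ) (d κ : ℝ), 1 < ρ → 0 < d →
    ∃ (d' : ℝ) (N0 : ℕ), 0 < d' ∧ ∀ n m : ℕ, N0 ≤ n → n ≤ m + a → m < n → (∀ b, m ∉ P b) →
      (∀ m' : ℕ, m < m' → m' ≤ n + c → EE ρ P m + d * ρ ^ n ≤ EE ρ P m') →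
      ∀ (I : Finset (Option (Bool × ℕ))) (c0 : Option (Bool × ℕ)),
        (∀ x ∈ I, Act P m (n + c) x) → Act P m (n + c) c0 → c0 ∉ I → I.Nonempty →
        (∀ x ∈ I, qq ρ P m (n + c) κ x ≤ qq ρ P m (n + c) κ c0) →
        ∃ c1 ∈ I, ∑ x ∈ I, (qq ρ P m (n + c) κ x - pp ρ x) +
          (if c1.map Prod.fst = c0.map Prod.fst then pp ρ c1 else 0) - pp ρ c0 ≤ -d' * ρ ^ n

/-- BST: the extension step.
Goal: `theorem bst (h1 : Kron) (h2 : DualA) (h3 : MinE) (h4 : GapH) : BStage`.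
Proof. Take `a` from `MinE`. Given `c`, `H := n + c`, `d` from `MinE`, `R := a + c`; the index type is
`ι := Option (Bool × Fin R)`, the element `some (b, r)` stands for the block `i = n - a + r` (so
`i < n + c`), `g none := none`, `g (some (b, r)) := some b`, `CR := 2 R + 1 = card ι`,
`κ := log (4 CR)`. Let `d'` from `GapH` (for `a, c, d, κ`), `t := ρ ^ n`, `t0` from `DualA` (for
`ι, g, B := 2 ρ ^ c + κ + 4, d'`). For `n` large take `m` from `MinE`, `A := ` the set of the active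
indices (`Act P m H`). Given `x`, apply `Kron` to the subtype `A` with the frequencies `1` (for `none`),
`gb b ^ st ρ b i`, with `β none := 2 exp (- ρ ^ m)`, `β (b, i) := - gb b ^ (st ρ b i) x`,
`M none := ⌈CR exp (ρ ^ m)⌉`, `M (b, i) := ⌈exp (ρ ^ e - pp (b, i))⌉` with `e := re (P b) H i > i`
(if `ρ ^ e < pp` then `M = 1`). No relation: if `∑ c i ξ i = 0`, `|c i| ≤ M i`, put
`U i := c i ξ i`: divisible by `gb b ^ st`, `|U none| ≤ 2 CR exp (ρ ^ m) ≤ exp (qq none)` and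
`|U (b, i)| ≤ (exp (ρ ^ e - pp) + 1) exp pp ≤ exp (ρ ^ e) + exp (ρ ^ i + 2) ≤ 4 CR exp (ρ ^ e)` for large
`n` (`ρ ^ e - ρ ^ i ≥ 2`). So `DualA` (hypothesis: `GapH`, transported by the injection
`some (b, r) ↦ some (b, n - a + r)`) gives `U = 0`, `c = 0`. `Kron` gives `z0` with
`di (z0 - β none) ≤ exp (- ρ ^ m)`; put `z := z0 - round (z0 - β none)`, so `|z - 2 exp (- ρ ^ m)| ≤
exp (- ρ ^ m)`, and `z ≡ z0` modulo `1`, so for the active `(b, i)`:
`di (gb b ^ st (x + z)) ≤ CR / M ≤ CR exp (pp - ρ ^ e)`. Now let `m ≤ j`, `j + 2 ≤ H`, `j, j + 1 ∈ P b`,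
`ρ ^ j ≤ k log (gb b) < ρ ^ (j + 1)`. As `m ∉ P b`, `m < j`; let `i ≤ j` be the start of the run
containing `j` (`m < i`, `i - 1 ∉ P b`, all of `[i, j + 1]` in `P b`), so `(b, i)` is active and
`e ≥ j + 2`. `k ≥ st ρ b i`, so
`di (gb b ^ k (x + z)) ≤ gb b ^ (k - st) di (gb b ^ st (x + z)) ≤ CR exp (k log (gb b) - ρ ^ e) ≤
CR exp (ρ ^ (j + 1) - ρ ^ (j + 2))`. `C := CR`. -/
def BStage : Prop :=
  ∀ (ρ : ℝ) (P : Bool → Set ℕ) (δ : ℝ) (n1 : ℕ), 1 < ρ → 0 < δ →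
    (∀ n, n1 ≤ n → δ * ρ ^ n ≤ EE ρ P n) →
    ∃ a : ℕ, ∀ c : ℕ, ∃ (N0 : ℕ) (C : ℝ), ∀ n : ℕ, N0 ≤ n → ∃ m : ℕ, n ≤ m + a ∧ m < n ∧
      (∀ b, m ∉ P b) ∧ ∀ x : ℝ, ∃ z : ℝ, Real.exp (-ρ ^ m) ≤ z ∧ z ≤ 3 * Real.exp (-ρ ^ m) ∧
        ∀ (b : Bool) (i : ℕ), m ≤ i → i + 2 ≤ n + c → i ∈ P b → i + 1 ∈ P b →
          ∀ k : ℕ, ρ ^ i ≤ k * Real.log (gb b) → (k : ℝ) * Real.log (gb b) < ρ ^ (i + 1) →
            di ((gb b : ℝ) ^ k * (x + z)) ≤ C * Real.exp (-(ρ ^ (i + 2) - ρ ^ (i + 1)))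

/-- BLK: from a tame set to quiet blocks.
Goal: `theorem blk : Blk`.
Proof. `P b := {i : ∃ k ∈ S, k log (gb b) < ρ ^ (i + 1), ρ ^ i ≤ ρ k log (gb b)}` (`S` meets the block `i`
or the block `i - 1`; for `i = 0` only the block `0`, roughly). The last statement is clear. Budget: let
`i ∈ P b`. Call `i` full if all `k` with `ρ ^ i ≤ k log (gb b) < ρ ^ (i + 1)` are in `S`. (1) The full
`i < n` contribute at most `log (gb b) * cnt S ⌈ρ ^ n / log (gb b)⌉ + 2 n` to the sum in `EE` (a block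
contains at least `(ρ ^ (i + 1) - ρ ^ i) / log (gb b) - 1` integers, and blocks are disjoint). (2) If
`i ∈ P b` is not full there are `k ∈ S` in the blocks `i - 1, i` and `k' ∉ S` in the block `i`. If
`k < k'` there is `j ∈ [k, k')` with `j ∈ S`, `j + 1 ∉ S`; if `k' < k` there is `j ∈ [k', k)` with
`j ∉ S`, `j + 1 ∈ S`. In every window `[N, 2 N]` there are at most `J` of the first kind and `J + 1` of the
second (between two of the second kind there is one of the first). Such a `j` is in the blocks `i - 1, i`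
(`ρ ^ (i - 1) ≤ j log (gb b) < ρ ^ (i + 1)`, at least up to one unit), so every `j` serves at most `3`
indices `i`. Hence (`1 < ρ ≤ 5 / 4`) the number of non full `i ∈ P b`, `i < n` with
`2 ^ (-r-1) ρ ^ n < ρ ^ (i+1) ≤ 2 ^ (-r) ρ ^ n` and `2 ^ (-r) ρ ^ n ≥ 8` is at most `K := 40 (J + 1)` (three
windows `[N, 2 N]`) and they contribute at most `K (ρ - 1) 2 ^ (-r) ρ ^ n`; sum over `r`:
`≤ 2 K (ρ - 1) ρ ^ n`; the remaining `i` (`ρ ^ (i + 1) < 8`) contribute at most `8`. Choose `ρ > 1` with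
`4 K (ρ - 1) ≤ δ / 4` (both bases). The constants do not matter.
(3) Let `u := ⌈ρ ^ n / log 3⌉`, so `cnt S ⌈ρ ^ n / log 3⌉ = cnt S u` and
`cnt S ⌈ρ ^ n / log 2⌉ ≤ cnt S ⌊u log 3 / log 2⌋ + 2`. By the hypothesis for `u`,
`∑_b (...) ≤ (1 - δ) (ρ ^ n + log 3) + O (n) + δ / 4 ρ ^ n`, so `EE n ≥ (δ / 2) ρ ^ n` for large `n`. -/
def Blk : Prop :=
  ∀ (S : Set ℕ), Tame S → ∀ (δ : ℝ) (n0 : ℕ), 0 < δ →
    (∀ n, n0 ≤ n → budget S n ≤ (1 - δ) * (n * Real.log 3)) →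
    ∃ (ρ : ℝ) (P : Bool → Set ℕ) (δ' : ℝ) (n1 : ℕ), 1 < ρ ∧ 0 < δ' ∧
      (∀ n, n1 ≤ n → δ' * ρ ^ n ≤ EE ρ P n) ∧
      ∀ (b : Bool) (k i : ℕ), k ∈ S → ρ ^ i ≤ k * Real.log (gb b) →
        (k : ℝ) * Real.log (gb b) < ρ ^ (i + 1) → i ∈ P b ∧ i + 1 ∈ P b

/-- LOW: the lower part.
Goal: `theorem low (h1 : BStage) (h2 : Blk) : Low`.
Proof. `ρ, P` from `Blk`, `a` from `BStage`; `L := a + 1`, `c := L + 2`, `N0, C` from `BStage`, enlarged so that
`ρ ^ (m + 1) - ρ ^ m ≥ 3` for `m ≥ N0 - a`. Put `n_j := N0 + j L` and let `m_j` be the number `m` of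
`BStage` for `n_j`; `m_(j+1) ≥ n_(j+1) - a = n_j + 1 > m_j`, so `8 exp (- ρ ^ m_(j+1)) ≤ exp (- ρ ^ m_j)`.
Use `Pool.Agent.Helper66.Rig.scheme` (file `Helper66/Rig/Scheme.lean`) with `ℓ j := 8 exp (- ρ ^ m_j)` and
`Prop j x := ∀ b, ∀ k ∈ S, ρ ^ m_j ≤ k log (gb b) → k log (gb b) < ρ ^ m_(j+1) →
di (gb b ^ k x) ≤ (|C| + 8) exp (- (ρ - 1) k log (gb b))`: for the interval `[α, α + ℓ j]` apply `BStage` to
`x = α` (`a0 := α + z`) and to `x = α + 4 exp (- ρ ^ m_j)` (`a1 := x + z`). Let `k` be as in `Prop j`, in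
the block `i`: `m_j ≤ i < m_(j+1) ≤ n_j + L`, `i, i + 1 ∈ P b` and
`ρ ^ (i+2) - ρ ^ (i+1) = (ρ - 1) ρ ^ (i+1) ≥ (ρ - 1) k log (gb b)`, so at `a0` we have
`di ≤ |C| exp (- (ρ - 1) k log (gb b))`; for `x ∈ [a0, a0 + ℓ (j+1)]` it changes by at most
`gb b ^ k * 8 exp (- ρ ^ m_(j+1)) ≤ 8 exp (ρ ^ (i+1) - ρ ^ (i+2))`, because `i + 2 ≤ m_(j+1)`
(`i < m_(j+1)`, and `i + 1 = m_(j+1)` is impossible as `i + 1 ∈ P b`, `m_(j+1) ∉ P b`). `scheme` gives `f`;
`σ := push f` (`push_cont`; `ℓ 0 < 1`), and for `k ∈ S` with `k log 2 ≥ ρ ^ m_0`: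
`di (2 ^ k f t), di (3 ^ k f t) ≤ (|C| + 8) exp (- (ρ - 1) k log 2)`, so `push_close` gives
`‖1 - fc σ (2 ^ k + 3 ^ k)‖ ≤ 4 π (|C| + 8) exp (- c' k)`, `c' := (ρ - 1) log 2`. For the other `k` use
`‖1 - fc σ n‖ ≤ 2` and enlarge the constant. -/
def Low : Prop :=
  ∀ (S : Set ℕ), Tame S → ∀ (δ : ℝ) (n0 : ℕ), 0 < δ →
    (∀ n, n0 ≤ n → budget S n ≤ (1 - δ) * (n * Real.log 3)) →
    ∃ σ : MeasureTheory.Measure ℂ, Pool.Agent.Helper66.Rig.ContProb σ ∧
      ∃ C c : ℝ, 0 < c ∧ ∀ k ∈ S,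
        ‖1 - Pool.Agent.Helper66.Rig.fc σ (2 ^ k + 3 ^ k)‖ ≤ C * Real.exp (-c * k)

end Pool.Agent.Helper73.Dn
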