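import Pool.Agent.Helper73.Dn.Goals

/-!
# Auxiliary lemmas on the distance to the nearest integer and on runs of blocks
-/

set_option autoImplicit false

open Pool.Agent.Helper17.Rg

namespace Pool.Agent.Helper73.Dn

theorem di_nonneg (x : ℝ) : 0 ≤ di x := abs_nonneg _

theorem di_le_int (x : ℝ) (z : ℤ) : di x ≤ |x - z| := round_le x z

theorem di_add_int (x : ℝ) (z : ℤ) : di (x + z) = di x := by
  unfold di
  rw [round_add_intCast]
  push_cast
  congr 1
  ring

theorem di_nmul (n : ℕ) (y : ℝ) : di (n * y) ≤ n * di y := by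
  refine (di_le_int (n * y) (n * round y)).trans (le_of_eq ?_)
  unfold di
  push_cast
  rw [← mul_sub, abs_mul, abs_of_nonneg (Nat.cast_nonneg n)]

theorem re_mem (P : Set ℕ) (H i : ℕ) : i ≤ re P H i ∧ (re P H i ∉ P ∨ H ≤ re P H i) := by
  have h : re P H i ∈ {j | i ≤ j ∧ (j ∉ P ∨ H ≤ j)} :=
    Nat.sInf_mem (s := {j | i ≤ j ∧ (j ∉ P ∨ H ≤ j)}) ⟨max i H, le_max_left _ _, Or.inr (le_max_right _ _)⟩
  exact h

theorem re_le {P : Set ℕ} {H i : ℕ} (h : i ≤ H) : re P H i ≤ H :=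
  Nat.sInf_le (s := {j | i ≤ j ∧ (j ∉ P ∨ H ≤ j)}) ⟨h, Or.inr le_rfl⟩

theorem re_run {P : Set ℕ} {H i j : ℕ} (h : i ≤ j) (h2 : j < re P H i) : j ∈ P ∧ j < H := by
  have h3 : j ∉ {j | i ≤ j ∧ (j ∉ P ∨ H ≤ j)} := Nat.notMem_of_lt_sInf h2
  simp only [Set.mem_setOf_eq, not_and, not_or, not_not, not_le] at h3
  exact h3 h

theorem re_ge {P : Set ℕ} {H i e : ℕ} (h : ∀ j, i ≤ j → j < e → j ∈ P ∧ j < H) (hie : i ≤ e) :
    e ≤ re P H i := by
  by_contra hc
  push Not at hc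
  have h1 := re_mem P H i
  obtain ⟨h2, h3⟩ := h _ h1.1 hc
  rcases h1.2 with h4 | h4
  · exact h4 h2
  · omega

theorem log_gb_pos (b : Bool) : 0 < Real.log (gb b) := by
  cases b
  · exact Real.log_pos (by norm_num [gb])
  · exact Real.log_pos (by norm_num [gb])

theorem log_gb_bd (b : Bool) : 1 / 2 < Real.log (gb b) ∧ Real.log (gb b) < 2 := by
  have h2 := Real.log_two_gt_d9
  have h2' := Real.log_two_lt_d9
  cases b
  · simp only [gb, Bool.false_eq_true, if_false]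
    push_cast
    constructor <;> linarith
  · simp only [gb, if_true]
    push_cast
    constructor
    · have : Real.log 2 ≤ Real.log 3 := Real.log_le_log (by norm_num) (by norm_num)
      linarith
    · have : Real.log 3 ≤ Real.log 4 := Real.log_le_log (by norm_num) (by norm_num)
      have h4 : Real.log 4 = 2 * Real.log 2 := by
        rw [show (4:ℝ) = 2 ^ 2 by norm_num, Real.log_pow]; norm_num
      linarith

theorem gb_pos (b : Bool) : (0 : ℝ) < gb b := by
  cases b <;> norm_num [gb]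

theorem gb_pow (b : Bool) (k : ℕ) : (gb b : ℝ) ^ k = Real.exp (k * Real.log (gb b)) := by
  rw [mul_comm, ← Real.rpow_def_of_pos (gb_pos b), Real.rpow_natCast]

theorem st_ge (ρ : ℝ) (b : Bool) (i : ℕ) : ρ ^ i ≤ st ρ b i * Real.log (gb b) := by
  have h := Nat.le_ceil (ρ ^ i / Real.log (gb b))
  rwa [div_le_iff₀ (log_gb_pos b)] at h

theorem st_lt {ρ : ℝ} (hρ : 0 < ρ) (b : Bool) (i : ℕ) :
    st ρ b i * Real.log (gb b) ≤ ρ ^ i + 2 := by
  have h1 := Nat.ceil_lt_add_one (a := ρ ^ i / Real.log (gb b))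
    (div_nonneg (pow_nonneg hρ.le i) (log_gb_pos b).le)
  have h2 := log_gb_pos b
  have h3 := (log_gb_bd b).2
  have h4 : (st ρ b i : ℝ) * Real.log (gb b) ≤ (ρ ^ i / Real.log (gb b) + 1) * Real.log (gb b) :=
    mul_le_mul_of_nonneg_right h1.le h2.le
  rw [add_mul, div_mul_cancel₀ _ h2.ne', one_mul] at h4
  linarith

theorem st_le_of {ρ : ℝ} {b : Bool} {i k : ℕ} (h : ρ ^ i ≤ k * Real.log (gb b)) :
    st ρ b i ≤ k := by
  refine Nat.ceil_le.2 ?_
  rw [div_le_iff₀ (log_gb_pos b)]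
  exact h

end Pool.Agent.Helper73.Dn
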